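import Mathlib

set_option autoImplicit false

/-! Cliques of a relation which is dense on all large subsets. -/

namespace Pool.Agent.L7h72.HW

open Finset

open Classical in
/-- the `k`-subsets all of whose pairs `a < b` satisfy `R a b` -/
noncomputable def cliques (R : ℕ → ℕ → Prop) (k : ℕ) (A : Finset ℕ) : Finset (Finset ℕ) :=
  (A.powersetCard k).filter (fun D => ∀ a ∈ D, ∀ b ∈ D, a < b → R a b)

open Classical in
/-- the larger elements related to `v` -/
noncomputable def fwd (R : ℕ → ℕ → Prop) (A : Finset ℕ) (v : ℕ) : Finset ℕ := A.filter (fun u => v < u ∧ R v u)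

open Classical in
/-- the related pairs -/
noncomputable def prs (R : ℕ → ℕ → Prop) (A : Finset ℕ) : Finset (ℕ × ℕ) :=
  (A ×ˢ A).filter (fun y => y.1 < y.2 ∧ R y.1 y.2)

open Classical in
lemma card_prs (R : ℕ → ℕ → Prop) (A : Finset ℕ) : (prs R A).card = ∑ v ∈ A, (fwd R A v).card := by
  calc (prs R A).card = ∑ y ∈ A ×ˢ A, (if y.1 < y.2 ∧ R y.1 y.2 then 1 else 0) := by
        unfold prs; exact card_filter _ _
    _ = ∑ v ∈ A, ∑ u ∈ A, (if v < u ∧ R v u then 1 else 0) := by rw [sum_product]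
    _ = ∑ v ∈ A, (fwd R A v).card := by
        apply sum_congr rfl
        intro v _
        unfold fwd
        rw [card_eq_sum_ones, sum_filter]

lemma fwd_sub (R : ℕ → ℕ → Prop) (A : Finset ℕ) (v : ℕ) : fwd R A v ⊆ A := by
  classical
  unfold fwd
  exact filter_subset _ _

lemma many (R : ℕ → ℕ → Prop) (A : Finset ℕ) {c : ℝ} (hc : 0 ≤ c) (h : c * (A.card : ℝ) ^ 2 ≤ (prs R A).card) :
    c / 2 * (A.card : ℝ) ≤ ((A.filter (fun v => c / 2 * (A.card : ℝ) ≤ (fwd R A v).card)).card : ℝ) := by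
  classical
  obtain ⟨n, hn⟩ : ∃ n : ℝ, n = A.card := ⟨_, rfl⟩
  rw [← hn] at h ⊢
  have hn0 : 0 ≤ n := by rw [hn]; exact Nat.cast_nonneg _
  obtain ⟨T, hT⟩ : ∃ T, T = A.filter (fun v => c / 2 * n ≤ (fwd R A v).card) := ⟨_, rfl⟩
  rw [← hT]
  rcases hn0.eq_or_lt with h0 | hnpos
  · rw [← h0]; simp
  have e : ((prs R A).card : ℝ) = ∑ v ∈ A, ((fwd R A v).card : ℝ) := by
    rw [card_prs]; push_cast; rfl
  have e2 := sum_filter_add_sum_filter_not A (fun v => c / 2 * n ≤ ((fwd R A v).card : ℝ)) (fun v => ((fwd R A v).card : ℝ))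
  rw [← hT] at e2
  have h1 : ∑ v ∈ T, ((fwd R A v).card : ℝ) ≤ T.card * n := by
    rw [← nsmul_eq_mul, ← sum_const]
    apply sum_le_sum
    intro v _
    rw [hn]
    exact_mod_cast card_le_card (fwd_sub R A v)
  have h2 : ∑ v ∈ A.filter (fun v => ¬ c / 2 * n ≤ ((fwd R A v).card : ℝ)), ((fwd R A v).card : ℝ) ≤ n * (c / 2 * n) := by
    calc ∑ v ∈ A.filter (fun v => ¬ c / 2 * n ≤ ((fwd R A v).card : ℝ)), ((fwd R A v).card : ℝ) ≤
        ∑ v ∈ A.filter (fun v => ¬ c / 2 * n ≤ ((fwd R A v).card : ℝ)), c / 2 * n := by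
          apply sum_le_sum
          intro v hv
          rw [mem_filter, not_le] at hv
          exact hv.2.le
      _ ≤ ∑ v ∈ A, c / 2 * n := by
          apply sum_le_sum_of_subset_of_nonneg (filter_subset _ _)
          intro v _ _
          positivity
      _ = n * (c / 2 * n) := by rw [sum_const, nsmul_eq_mul, hn]
  have h3 : c / 2 * n * n ≤ T.card * n := by
    have : c * n ^ 2 ≤ T.card * n + n * (c / 2 * n) := by
      rw [e] at h
      linarith
    linarith
  exact le_of_mul_le_mul_right h3 hnpos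

lemma step (R : ℕ → ℕ → Prop) (k : ℕ) (A : Finset ℕ) :
    ∑ v ∈ A, (cliques R k (fwd R A v)).card ≤ (cliques R (k + 1) A).card := by
  classical
  rw [← card_sigma]
  have hmem : ∀ v D, D ∈ cliques R k (fwd R A v) → (∀ b ∈ D, v < b ∧ R v b ∧ b ∈ A) ∧ D.card = k ∧
      ∀ a ∈ D, ∀ b ∈ D, a < b → R a b := by
    intro v D hD
    unfold cliques fwd at hD
    rw [mem_filter, mem_powersetCard] at hD
    refine ⟨fun b hb => ?_, hD.1.2, hD.2⟩
    have := hD.1.1 hb
    rw [mem_filter] at this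
    exact ⟨this.2.1, this.2.2, this.1⟩
  apply card_le_card_of_injOn (fun y : (_ : ℕ) × Finset ℕ => insert y.1 y.2)
  · rintro ⟨v, D⟩ hy
    rw [mem_coe, mem_sigma] at hy
    simp only at hy
    obtain ⟨hv, hD⟩ := hy
    obtain ⟨h1, h2, h3⟩ := hmem v D hD
    rw [mem_coe]
    unfold cliques
    rw [mem_filter, mem_powersetCard]
    simp only
    have hvD : v ∉ D := fun h => lt_irrefl v (h1 v h).1
    refine ⟨⟨?_, by rw [card_insert_of_notMem hvD, h2]⟩, ?_⟩
    · intro b hb
      rw [mem_insert] at hb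
      rcases hb with rfl | hb
      · exact hv
      · exact (h1 b hb).2.2
    · intro a ha b hb hab
      rw [mem_insert] at ha hb
      rcases ha with rfl | ha
      · rcases hb with rfl | hb
        · exact absurd hab (lt_irrefl _)
        · exact (h1 b hb).2.1
      · rcases hb with rfl | hb
        · exact absurd hab (not_lt.2 (h1 a ha).1.le)
        · exact h3 a ha b hb hab
  · rintro ⟨v, D⟩ hy ⟨v', D'⟩ hy' he
    rw [mem_coe, mem_sigma] at hy hy'
    simp only at hy hy' he
    obtain ⟨h1, h2, h3⟩ := hmem v D hy.2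
    obtain ⟨h1', h2', h3'⟩ := hmem v' D' hy'.2
    have hvD : v ∉ D := fun h => lt_irrefl v (h1 v h).1
    have hvD' : v' ∉ D' := fun h => lt_irrefl v' (h1' v' h).1
    have hvv : v = v' := by
      have a1 : v ∈ insert v' D' := by rw [← he]; exact mem_insert_self _ _
      have a2 : v' ∈ insert v D := by rw [he]; exact mem_insert_self _ _
      rw [mem_insert] at a1 a2
      rcases a1 with a1 | a1
      · exact a1
      · rcases a2 with a2 | a2
        · exact a2.symm
        · exact absurd (h1' v a1).1 (not_lt.2 (h1 v' a2).1.le)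
    subst hvv
    have hDD : D = D' := by
      rw [← erase_insert hvD, he, erase_insert hvD']
    rw [hDD]

theorem cliques_card (R : ℕ → ℕ → Prop) (A₀ : Finset ℕ) {c n0 : ℝ} (hc0 : 0 < c) (hc1 : c ≤ 1)
    (h : ∀ A ⊆ A₀, n0 ≤ A.card → c * (A.card : ℝ) ^ 2 ≤ (prs R A).card) (k : ℕ) :
    ∀ A ⊆ A₀, (k = 0 ∨ n0 ≤ (c / 2) ^ (k - 1) * A.card) → (c / 2) ^ ((k + 1) ^ 2) * (A.card : ℝ) ^ (k + 1) ≤ (cliques R (k + 1) A).card := by
  classical
  obtain ⟨q, hq⟩ : ∃ q, q = c / 2 := ⟨_, rfl⟩
  rw [← hq]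
  have hq0 : 0 < q := by rw [hq]; positivity
  have hq1 : q ≤ 1 := by rw [hq]; linarith
  induction k with
  | zero =>
    intro A hA _
    have e : (cliques R (0 + 1) A).card = A.card := by
      unfold cliques
      rw [filter_true_of_mem, card_powersetCard, zero_add, Nat.choose_one_right]
      intro D hD a ha b hb hab
      rw [mem_powersetCard] at hD
      exact absurd (card_le_one.1 hD.2.le a ha b hb) hab.ne
    rw [e]
    have h0 : (0 : ℝ) ≤ A.card := Nat.cast_nonneg _
    simp only [zero_add, pow_one, one_pow]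
    nlinarith
  | succ k ih =>
    intro A hA hn
    have hn := hn.resolve_left (Nat.succ_ne_zero k)
    rw [Nat.add_sub_cancel] at hn
    obtain ⟨n, hnn⟩ : ∃ n : ℝ, n = A.card := ⟨_, rfl⟩
    have hn' : 0 ≤ n := by rw [hnn]; exact Nat.cast_nonneg _
    rw [← hnn] at hn
    have hn1 : n0 ≤ n := by
      refine hn.trans ?_
      exact mul_le_of_le_one_left hn' (pow_le_one₀ hq0.le hq1)
    have hmany := many R A hc0.le (h A hA (by rw [← hnn]; exact hn1))
    rw [← hq, ← hnn] at hmany
    obtain ⟨T, hT⟩ : ∃ T, T = A.filter (fun v => q * n ≤ (fwd R A v).card) := ⟨_, rfl⟩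
    rw [← hT] at hmany
    have h1 : ∀ v ∈ T, q ^ ((k + 1) ^ 2) * (q * n) ^ (k + 1) ≤ ((cliques R (k + 1) (fwd R A v)).card : ℝ) := by
      intro v hv
      rw [hT, mem_filter] at hv
      have h2 := ih (fwd R A v) ((fwd_sub R A v).trans hA) (by
        rcases Nat.eq_zero_or_pos k with hk | hk
        · exact Or.inl hk
        · right
          refine hn.trans ?_
          obtain ⟨m, rfl⟩ : ∃ m, k = m + 1 := ⟨k - 1, by omega⟩
          rw [Nat.add_sub_cancel, pow_succ, mul_assoc]
          exact mul_le_mul_of_nonneg_left hv.2 (by positivity))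
      refine le_trans ?_ h2
      apply mul_le_mul_of_nonneg_left _ (by positivity)
      exact pow_le_pow_left₀ (by positivity) hv.2 _
    have h3 : (T.card : ℝ) * (q ^ ((k + 1) ^ 2) * (q * n) ^ (k + 1)) ≤ (cliques R (k + 1 + 1) A).card := by
      calc (T.card : ℝ) * (q ^ ((k + 1) ^ 2) * (q * n) ^ (k + 1)) = ∑ v ∈ T, q ^ ((k + 1) ^ 2) * (q * n) ^ (k + 1) := by
            rw [sum_const, nsmul_eq_mul]
        _ ≤ ∑ v ∈ T, ((cliques R (k + 1) (fwd R A v)).card : ℝ) := sum_le_sum h1
        _ ≤ ∑ v ∈ A, ((cliques R (k + 1) (fwd R A v)).card : ℝ) := by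
            apply sum_le_sum_of_subset_of_nonneg
            · rw [hT]; exact filter_subset _ _
            · intro v _ _; positivity
        _ ≤ _ := by exact_mod_cast step R (k + 1) A
    refine le_trans ?_ h3
    refine le_trans ?_ (mul_le_mul_of_nonneg_right hmany (by positivity))
    rw [← hnn]
    have e : q * n * (q ^ ((k + 1) ^ 2) * (q * n) ^ (k + 1)) = q ^ ((k + 1) ^ 2 + (k + 1) + 1) * n ^ (k + 1 + 1) := by
      rw [mul_pow, pow_add q, pow_add q, pow_succ n (k + 1)]
      ring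
    rw [e]
    apply mul_le_mul_of_nonneg_right _ (by positivity)
    apply pow_le_pow_of_le_one hq0.le hq1
    nlinarith

end Pool.Agent.L7h72.HW
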