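import Mathlib
import Pool.Agent.H373R2.T7.SysCount

set_option autoImplicit false

/-! Local factors of the singular series of prime pairs, truncated at `z`. -/

namespace Pool.Agent.L7h72.HW

open Finset
open Pool.Agent.H373R2.T7

/-- the number of forbidden classes prime to `p` -/
noncomputable def lc (p : ℕ) (h : ℤ) : ℝ := if (p : ℤ) ∣ h then 0 else 1

/-- the singular series truncated at `z` -/
noncomputable def G (z : ℕ) (h : ℤ) : ℝ := (Vz z)⁻¹ * ∏ p ∈ pz z, (1 - lc p h / (p - 1 : ℝ))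

lemma lc_nonneg (p : ℕ) (h : ℤ) : 0 ≤ lc p h := by unfold lc; split_ifs <;> norm_num

lemma lc_le (p : ℕ) (h : ℤ) : lc p h ≤ 1 := by unfold lc; split_ifs <;> norm_num

lemma lc_neg (p : ℕ) (h : ℤ) : lc p (-h) = lc p h := by unfold lc; simp only [dvd_neg]

lemma G_neg (z : ℕ) (h : ℤ) : G z (-h) = G z h := by unfold G; simp only [lc_neg]

lemma fac_nonneg {z p : ℕ} (hp : p ∈ pz z) (h : ℤ) : 0 ≤ 1 - lc p h / (p - 1 : ℝ) := by
  have hp2 : (2 : ℝ) ≤ p := by exact_mod_cast (mem_pz.1 hp).2.two_le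
  have h1 := lc_le p h
  have : lc p h / (p - 1 : ℝ) ≤ 1 := by rw [div_le_one (by linarith)]; linarith
  linarith

lemma G_nonneg (z : ℕ) (h : ℤ) : 0 ≤ G z h :=
  mul_nonneg (inv_pos.2 (Vz_pos z)).le (prod_nonneg fun _ hp => fac_nonneg hp h)

lemma G_zero (z : ℕ) : G z 0 = (Vz z)⁻¹ := by
  unfold G
  rw [prod_eq_one, mul_one]
  intro p _
  unfold lc
  simp

/-- one shift -/
def Q1 (h : ℤ) (p n : ℕ) : Prop := (p : ℤ) ∣ (n : ℤ) + h

/-- two shifts -/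
def Q2 (a b : ℤ) (p n : ℕ) : Prop := (p : ℤ) ∣ (n : ℤ) + a ∨ (p : ℤ) ∣ (n : ℤ) + b

lemma Q1_per (h : ℤ) (p n : ℕ) : Q1 h p n ↔ Q1 h p (n % p) := by
  unfold Q1
  have e : (n : ℤ) + h = ((n % p : ℕ) : ℤ) + h + (p : ℤ) * ((n / p : ℕ) : ℤ) := by
    have := Nat.mod_add_div n p
    have h2 : ((n % p : ℕ) : ℤ) + (p : ℤ) * ((n / p : ℕ) : ℤ) = n := by exact_mod_cast this
    linarith
  rw [e]
  exact (Int.dvd_add_left (dvd_mul_right _ _))

lemma Q2_per (a b : ℤ) (p n : ℕ) : Q2 a b p n ↔ Q2 a b p (n % p) :=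
  or_congr (Q1_per a p n) (Q1_per b p n)

/-- the class of `-h` -/
def cls (p : ℕ) (h : ℤ) : ℕ := ((-h) % (p : ℤ)).toNat

lemma cls_lt {p : ℕ} (hp : 0 < p) (h : ℤ) : cls p h < p := by
  unfold cls
  have h1 := Int.emod_nonneg (-h) (show (p : ℤ) ≠ 0 by exact_mod_cast hp.ne')
  have h2 := Int.emod_lt_of_pos (-h) (show (0 : ℤ) < p by exact_mod_cast hp)
  omega

lemma Q1_iff {p : ℕ} (hp : 0 < p) (h : ℤ) {r : ℕ} (hr : r < p) : Q1 h p r ↔ r = cls p h := by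
  have hp0 : (p : ℤ) ≠ 0 := by exact_mod_cast hp.ne'
  have h1 := Int.emod_nonneg (-h) hp0
  have h2 := Int.emod_lt_of_pos (-h) (show (0 : ℤ) < p by exact_mod_cast hp)
  have e1 : ((cls p h : ℕ) : ℤ) = (-h) % (p : ℤ) := by unfold cls; exact Int.toNat_of_nonneg h1
  have e2 : Q1 h p r ↔ ((r : ℤ) % p = (-h) % p) := by
    unfold Q1
    rw [Int.emod_eq_emod_iff_emod_sub_eq_zero, ← Int.dvd_iff_emod_eq_zero, sub_neg_eq_add]
  rw [e2]
  have e3 : (r : ℤ) % p = r := Int.emod_eq_of_lt (by positivity) (by exact_mod_cast hr)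
  rw [e3, ← e1]
  norm_cast

lemma cls_eq_iff {p : ℕ} (hp : 0 < p) (a b : ℤ) : cls p a = cls p b ↔ (p : ℤ) ∣ b - a := by
  have hp0 : (p : ℤ) ≠ 0 := by exact_mod_cast hp.ne'
  have h1 := Int.emod_nonneg (-a) hp0
  have h2 := Int.emod_nonneg (-b) hp0
  have e : cls p a = cls p b ↔ (-a) % (p : ℤ) = (-b) % (p : ℤ) := by
    unfold cls
    omega
  rw [e, Int.emod_eq_emod_iff_emod_sub_eq_zero, ← Int.dvd_iff_emod_eq_zero]
  have : -a - -b = b - a := by ring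
  rw [this]

open Classical in
lemma nuB_Q1 {p : ℕ} (hp : 0 < p) (h : ℤ) : nuB (Q1 h) p = 1 := by
  unfold nuB
  have e : (range p).filter (fun r => Q1 h p r) = {cls p h} := by
    ext r
    rw [mem_filter, mem_range, mem_singleton]
    constructor
    · rintro ⟨h1, h2⟩; exact (Q1_iff hp h h1).1 h2
    · rintro rfl; exact ⟨cls_lt hp h, (Q1_iff hp h (cls_lt hp h)).2 rfl⟩
  rw [e, card_singleton]

open Classical in
lemma nuB_Q2 {p : ℕ} (hp : 0 < p) (a b : ℤ) : (nuB (Q2 a b) p : ℝ) = 1 + lc p (b - a) := by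
  unfold nuB
  have e : (range p).filter (fun r => Q2 a b p r) = {cls p a, cls p b} := by
    ext r
    rw [mem_filter, mem_range, mem_insert, mem_singleton]
    constructor
    · rintro ⟨h1, h2⟩
      rcases h2 with h2 | h2
      · exact Or.inl ((Q1_iff hp a h1).1 h2)
      · exact Or.inr ((Q1_iff hp b h1).1 h2)
    · rintro (rfl | rfl)
      · exact ⟨cls_lt hp a, Or.inl ((Q1_iff hp a (cls_lt hp a)).2 rfl)⟩
      · exact ⟨cls_lt hp b, Or.inr ((Q1_iff hp b (cls_lt hp b)).2 rfl)⟩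
  rw [e]
  unfold lc
  by_cases hd : (p : ℤ) ∣ b - a
  · rw [if_pos hd, (cls_eq_iff hp a b).2 hd]
    simp
  · rw [if_neg hd, card_pair (fun h => hd ((cls_eq_iff hp a b).1 h))]
    norm_num

open Classical in
lemma rhoA_Q1 {p : ℕ} (hp : p.Prime) (h : ℤ) : (rhoA (Q1 h) p : ℝ) = lc p h := by
  unfold rhoA lc
  have hp0 := hp.pos
  have hc : p ∣ cls p h ↔ (p : ℤ) ∣ h := by
    have h1 : Q1 0 p (cls p h) ↔ p ∣ cls p h := by
      unfold Q1
      rw [add_zero]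
      exact Int.natCast_dvd_natCast
    rw [← h1, Q1_iff hp0 0 (cls_lt hp0 h), cls_eq_iff hp0]
    simp
  by_cases hd : (p : ℤ) ∣ h
  · rw [if_pos hd]
    have e : (range p).filter (fun r => ¬ p ∣ r ∧ Q1 h p r) = ∅ := by
      rw [filter_eq_empty_iff]
      rintro r hr ⟨h1, h2⟩
      rw [mem_range] at hr
      rw [(Q1_iff hp0 h hr).1 h2] at h1
      exact h1 (hc.2 hd)
    rw [e]; simp
  · rw [if_neg hd]
    have e : (range p).filter (fun r => ¬ p ∣ r ∧ Q1 h p r) = {cls p h} := by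
      ext r
      rw [mem_filter, mem_range, mem_singleton]
      constructor
      · rintro ⟨h1, _, h2⟩; exact (Q1_iff hp0 h h1).1 h2
      · rintro rfl
        exact ⟨cls_lt hp0 h, fun h' => hd (hc.1 h'), (Q1_iff hp0 h (cls_lt hp0 h)).2 rfl⟩
    rw [e]; simp

lemma perB_Q1 (h : ℤ) : PerB (Q1 h) 2 :=
  ⟨Q1_per h, fun p hp => by rw [nuB_Q1 hp.pos]; norm_num⟩

lemma perB_Q2 (a b : ℤ) : PerB (Q2 a b) 2 :=
  ⟨Q2_per a b, fun p hp => by
    have h1 := nuB_Q2 hp.pos a b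
    have h2 := lc_le p (b - a)
    have : (nuB (Q2 a b) p : ℝ) ≤ ((2 : ℕ) : ℝ) := by rw [h1]; push_cast; linarith
    exact_mod_cast this⟩

/-- the density of a sifted set with one shift -/
lemma prod_Q1 (z : ℕ) (h : ℤ) : ∏ p ∈ pz z, (1 - (nuB (Q1 h) p : ℝ) / p) = Vz z := by
  unfold Vz
  apply prod_congr rfl
  intro p hp
  rw [nuB_Q1 (mem_pz.1 hp).2.pos]
  norm_num

/-- the density of a sifted set with two shifts -/
lemma prod_Q2 (z : ℕ) (a b : ℤ) : ∏ p ∈ pz z, (1 - (nuB (Q2 a b) p : ℝ) / p) = Vz z ^ 2 * G z (b - a) := by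
  have e0 : Vz z ^ 2 * G z (b - a) = Vz z * ∏ p ∈ pz z, (1 - lc p (b - a) / (p - 1 : ℝ)) := by
    unfold G
    have := (Vz_pos z).ne'
    field_simp
  rw [e0]
  unfold Vz
  rw [← prod_mul_distrib]
  apply prod_congr rfl
  intro p hp
  have hp2 : (2 : ℝ) ≤ p := by exact_mod_cast (mem_pz.1 hp).2.two_le
  rw [nuB_Q2 (mem_pz.1 hp).2.pos]
  have h1 : (p : ℝ) ≠ 0 := by positivity
  have h2 : (p : ℝ) - 1 ≠ 0 := by
    intro h; linarith
  field_simp
  ring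

/-- the density of a sifted set of primes with one shift -/
lemma prod_rho (z : ℕ) (h : ℤ) : ∏ p ∈ pz z, (1 - (rhoA (Q1 h) p : ℝ) / (p - 1 : ℝ)) = Vz z * G z h := by
  unfold G
  rw [← mul_assoc, mul_inv_cancel₀ (Vz_pos z).ne', one_mul]
  apply prod_congr rfl
  intro p hp
  rw [rhoA_Q1 (mem_pz.1 hp).2]

end Pool.Agent.L7h72.HW
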