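import Mathlib
import Pool.Agent.L7h72.HW.Loc
import Pool.Agent.H373R2.T7.LamZ2

set_option autoImplicit false

/-! Correlations of the primes and of the sieve model. -/

namespace Pool.Agent.L7h72.HW

open Finset
open Pool.Agent.H373R2.T7

/-- the logarithm on the primes -/
noncomputable def tht (n : ℕ) : ℝ := if n.Prime then Real.log n else 0

lemma tht_nonneg (n : ℕ) : 0 ≤ tht n := by
  unfold tht
  split_ifs
  · exact Real.log_natCast_nonneg _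
  · exact le_rfl

lemma tht_le (n : ℕ) : tht n ≤ ArithmeticFunction.vonMangoldt n := by
  unfold tht
  split_ifs with h
  · rw [ArithmeticFunction.vonMangoldt_apply_prime h]
  · exact ArithmeticFunction.vonMangoldt_nonneg

lemma tht_le_log (n : ℕ) : tht n ≤ Real.log n := (tht_le n).trans ArithmeticFunction.vonMangoldt_le_log

lemma diff_sum (X : ℕ) (hX : 1 ≤ X) :
    ∑ n ∈ Icc 1 X, (ArithmeticFunction.vonMangoldt n - tht n) ≤ 2 * √(X : ℝ) * Real.log X := by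
  have h0 := Chebyshev.psi_sub_theta_le (x := (X : ℝ)) (by exact_mod_cast hX)
  rw [Chebyshev.psi_sub_theta_eq_sum_not_prime, Nat.floor_natCast] at h0
  refine le_trans (le_of_eq ?_) h0
  rw [sum_filter]
  have e : Ioc 0 X = Icc 1 X := by ext; simp [mem_Ioc, mem_Icc]; omega
  rw [e]
  apply sum_congr rfl
  intro n _
  unfold tht
  by_cases h : n.Prime
  · rw [if_pos h, ArithmeticFunction.vonMangoldt_apply_prime h]
    simp [h]
  · rw [if_neg h]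
    simp [h]

lemma not_Q1_iff (z : ℕ) (h : ℤ) (n k : ℕ) (e : (n : ℤ) + h = k) :
    (∀ p ∈ pz z, ¬ Q1 h p n) ↔ ∀ p ∈ pz z, ¬ p ∣ k := by
  unfold Q1
  rw [e]
  simp only [Int.natCast_dvd_natCast]

open Classical in
theorem two (E U : ℕ) : ∃ N0 : ℕ, ∀ N : ℕ, N0 ≤ N → ∀ z : ℕ, 1 ≤ z → (z : ℝ) ≤ Real.log N ^ E → ∀ a b : ℕ,
    |∑ m ∈ Icc 1 N, lamz z (m + a) * lamz z (m + b) - N * G z ((b : ℤ) - a)| ≤ N / Real.log N ^ U := by
  obtain ⟨N1, h1⟩ := sys_count 2 E (U + 2) (by norm_num)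
  obtain ⟨N2, h2⟩ := Vz_inv_small E
  obtain ⟨N3, h3⟩ := ev_L' 1
  refine ⟨N1 + N2 + N3, fun N hN z hz hzE a b => ?_⟩
  have a1 := h1 N (by omega) z hz hzE (Q2 a b) (perB_Q2 a b)
  have a2 := h2 N (by omega) z hz hzE
  have a3 := h3 N (by omega)
  obtain ⟨L, hL⟩ : ∃ L, L = Real.log (N : ℝ) := ⟨_, rfl⟩
  rw [← hL] at a1 a2 a3 ⊢
  have hV := inv_pos.2 (Vz_pos z)
  rw [prod_Q2] at a1
  have key : ∑ m ∈ Icc 1 N, lamz z (m + a) * lamz z (m + b) =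
      (Vz z)⁻¹ ^ 2 * (((Icc 1 N).filter (fun n : ℕ => ∀ p ∈ pz z, ¬ Q2 a b p n)).card : ℝ) := by
    rw [card_filter, Nat.cast_sum, mul_sum]
    apply sum_congr rfl
    intro m _
    have e1 := not_Q1_iff z a m (m + a) (by push_cast; rfl)
    have e2 := not_Q1_iff z b m (m + b) (by push_cast; rfl)
    have e3 : (∀ p ∈ pz z, ¬ Q2 a b p m) ↔ (∀ p ∈ pz z, ¬ Q1 a p m) ∧ (∀ p ∈ pz z, ¬ Q1 b p m) := by
      unfold Q2
      constructor
      · intro h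
        exact ⟨fun p hp hq => h p hp (Or.inl hq), fun p hp hq => h p hp (Or.inr hq)⟩
      · rintro ⟨ha, hb⟩ p hp (hq | hq)
        · exact ha p hp hq
        · exact hb p hp hq
    unfold lamz
    by_cases ha : ∀ p ∈ pz z, ¬ p ∣ m + a
    · by_cases hb : ∀ p ∈ pz z, ¬ p ∣ m + b
      · rw [if_pos ha, if_pos hb, if_pos (e3.2 ⟨e1.2 ha, e2.2 hb⟩)]
        push_cast; ring
      · rw [if_neg hb, if_neg (fun h => hb (e2.1 (e3.1 h).2))]
        push_cast; ring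
    · rw [if_neg ha, if_neg (fun h => ha (e1.1 (e3.1 h).1))]
      push_cast; ring
  rw [key]
  have e : (Vz z)⁻¹ ^ 2 * (((Icc 1 N).filter (fun n : ℕ => ∀ p ∈ pz z, ¬ Q2 a b p n)).card : ℝ) - N * G z ((b : ℤ) - a) =
      (Vz z)⁻¹ ^ 2 * ((((Icc 1 N).filter (fun n : ℕ => ∀ p ∈ pz z, ¬ Q2 a b p n)).card : ℝ) -
        N * (Vz z ^ 2 * G z ((b : ℤ) - a))) := by
    have := (Vz_pos z).ne'
    field_simp
  rw [e, abs_mul, abs_of_pos (by positivity)]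
  have hL0 : 0 < L := by linarith
  calc (Vz z)⁻¹ ^ 2 * |(((Icc 1 N).filter (fun n : ℕ => ∀ p ∈ pz z, ¬ Q2 a b p n)).card : ℝ) -
        N * (Vz z ^ 2 * G z ((b : ℤ) - a))| ≤ L ^ 2 * (N / L ^ (U + 2)) := by
        apply mul_le_mul _ a1 (abs_nonneg _) (by positivity)
        exact pow_le_pow_left₀ hV.le a2 2
    _ = N / L ^ U := by
        rw [pow_add]
        field_simp

open Classical in
theorem one (E U : ℕ) : ∃ N0 : ℕ, ∀ N : ℕ, N0 ≤ N → ∀ z : ℕ, 1 ≤ z → (z : ℝ) ≤ Real.log N ^ E → ∀ a : ℕ,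
    |∑ m ∈ Icc 1 N, lamz z (m + a) - N| ≤ N / Real.log N ^ U := by
  obtain ⟨N1, h1⟩ := sys_count 2 E (U + 1) (by norm_num)
  obtain ⟨N2, h2⟩ := Vz_inv_small E
  obtain ⟨N3, h3⟩ := ev_L' 1
  refine ⟨N1 + N2 + N3, fun N hN z hz hzE a => ?_⟩
  have a1 := h1 N (by omega) z hz hzE (Q1 a) (perB_Q1 a)
  have a2 := h2 N (by omega) z hz hzE
  have a3 := h3 N (by omega)
  obtain ⟨L, hL⟩ : ∃ L, L = Real.log (N : ℝ) := ⟨_, rfl⟩
  rw [← hL] at a1 a2 a3 ⊢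
  have hV := inv_pos.2 (Vz_pos z)
  rw [prod_Q1] at a1
  have key : ∑ m ∈ Icc 1 N, lamz z (m + a) =
      (Vz z)⁻¹ * (((Icc 1 N).filter (fun n : ℕ => ∀ p ∈ pz z, ¬ Q1 a p n)).card : ℝ) := by
    rw [card_filter, Nat.cast_sum, mul_sum]
    apply sum_congr rfl
    intro m _
    have e1 := not_Q1_iff z a m (m + a) (by push_cast; rfl)
    unfold lamz
    by_cases ha : ∀ p ∈ pz z, ¬ p ∣ m + a
    · rw [if_pos ha, if_pos (e1.2 ha)]
      push_cast; ring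
    · rw [if_neg ha, if_neg (fun h => ha (e1.1 h))]
      push_cast; ring
  rw [key]
  have e : (Vz z)⁻¹ * (((Icc 1 N).filter (fun n : ℕ => ∀ p ∈ pz z, ¬ Q1 a p n)).card : ℝ) - N =
      (Vz z)⁻¹ * ((((Icc 1 N).filter (fun n : ℕ => ∀ p ∈ pz z, ¬ Q1 a p n)).card : ℝ) - N * Vz z) := by
    have := (Vz_pos z).ne'
    field_simp
  rw [e, abs_mul, abs_of_pos (by positivity)]
  have hL0 : 0 < L := by linarith
  calc (Vz z)⁻¹ * |(((Icc 1 N).filter (fun n : ℕ => ∀ p ∈ pz z, ¬ Q1 a p n)).card : ℝ) - N * Vz z| ≤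
        L * (N / L ^ (U + 1)) := mul_le_mul a2 a1 (abs_nonneg _) (by positivity)
    _ = N / L ^ U := by
        rw [pow_succ]
        field_simp

end Pool.Agent.L7h72.HW
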