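import Mathlib
import Pool.Agent.L7h72.HW.Sum

set_option autoImplicit false

/-! The correlation of the primes with the sieve model. -/

namespace Pool.Agent.L7h72.HW

open Finset
open Pool.Agent.H373R2.T7

lemma shift_sum (N a : ℕ) (F : ℕ → ℝ) : ∑ m ∈ Icc 1 N, F (m + a) = ∑ n ∈ Ioc a (N + a), F n := by
  apply sum_bij (fun m _ => m + a)
  · intro m hm
    rw [mem_Icc] at hm
    rw [mem_Ioc]
    omega
  · intro m _ m' _ h
    exact Nat.add_right_cancel h
  · intro n hn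
    rw [mem_Ioc] at hn
    exact ⟨n - a, by rw [mem_Icc]; omega, by omega⟩
  · intro m _; rfl

lemma split_sum (X a : ℕ) (haX : a ≤ X) (F : ℕ → ℝ) : ∑ n ∈ Icc 1 X, F n = ∑ n ∈ Icc 1 a, F n + ∑ n ∈ Ioc a X, F n := by
  have e : ∀ k : ℕ, Icc 1 k = Ioc 0 k := by intro k; ext; simp [mem_Ioc, mem_Icc]; omega
  rw [e, e, sum_Ioc_consecutive _ (Nat.zero_le a) haX]

open Classical in
theorem lam (E U : ℕ) : ∃ N0 : ℕ, ∀ N : ℕ, N0 ≤ N → ∀ z : ℕ, 1 ≤ z → (z : ℝ) ≤ Real.log N ^ E → ∀ a b : ℕ,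
    (a : ℝ) ≤ Real.log N ^ E →
    |∑ m ∈ Icc 1 N, tht (m + a) * lamz z (m + b) - N * G z ((b : ℤ) - a)| ≤ N / Real.log N ^ U := by
  obtain ⟨N1, h1⟩ := sys_main 2 E (U + 2) (by norm_num)
  obtain ⟨N2, h2⟩ := Vz_inv_small E
  obtain ⟨N3, h3⟩ := ev_L' 8
  obtain ⟨N4, h4⟩ := ev_log' (E + U + 4) 100
  refine ⟨N1 + N2 + N3 + N4 + 1, fun N hN z hz hzE a b ha => ?_⟩
  have hN1 : 1 ≤ N := by omega
  have hNr : (1 : ℝ) ≤ N := by exact_mod_cast hN1
  have hN0 : (0 : ℝ) < N := by linarith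
  have a2 := h2 N (by omega) z hz hzE
  have a3 := h3 N (by omega)
  have a4 := h4 N (by omega)
  obtain ⟨X, hX⟩ : ∃ X, X = N + a := ⟨_, rfl⟩
  have hNX : N ≤ X := by omega
  have hX1 : 1 ≤ X := by omega
  obtain ⟨L, hL⟩ : ∃ L, L = Real.log (N : ℝ) := ⟨_, rfl⟩
  have hlX : L ≤ Real.log X := by
    rw [hL]
    exact Real.log_le_log hN0 (by exact_mod_cast hNX)
  have a1 := h1 X (by omega) z hz (hzE.trans (by
    rw [← hL]
    exact pow_le_pow_left₀ (by rw [hL]; exact Real.log_natCast_nonneg _) hlX _)) (Q1 ((b : ℤ) - a)) (perB_Q1 _).toA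
  rw [prod_rho] at a1
  rw [← hL] at a2 a3 a4 ha ⊢
  obtain ⟨s, hs⟩ : ∃ s, s = √(N : ℝ) := ⟨_, rfl⟩
  rw [← hs] at a4
  have hss : s * s = N := by rw [hs]; exact Real.mul_self_sqrt hN0.le
  have hs0 : 0 < s := by rw [hs]; exact Real.sqrt_pos.2 hN0
  have hL0 : 0 < L := by linarith
  have hL1 : 1 ≤ L := by linarith
  obtain ⟨V, hVd⟩ : ∃ V, V = (Vz z)⁻¹ := ⟨_, rfl⟩
  have hV : 0 < V := by rw [hVd]; exact inv_pos.2 (Vz_pos z)
  rw [← hVd] at a2
  obtain ⟨g, hg⟩ : ∃ g, g = G z ((b : ℤ) - a) := ⟨_, rfl⟩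
  have hg0 : 0 ≤ g := by rw [hg]; exact G_nonneg _ _
  have hgV : g ≤ V := by
    rw [hg, hVd]
    unfold G
    apply mul_le_of_le_one_right (inv_pos.2 (Vz_pos z)).le
    apply prod_le_one
    · intro p hp; exact fac_nonneg hp _
    · intro p hp
      have hp2 : (2 : ℝ) ≤ p := by exact_mod_cast (mem_pz.1 hp).2.two_le
      have : 0 ≤ lc p ((b : ℤ) - a) / (p - 1 : ℝ) := div_nonneg (lc_nonneg _ _) (by linarith)
      linarith
  rw [← hg] at a1 ⊢
  -- the powers of the logarithm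
  have hEU : L ^ E * L ^ U * L ^ 4 = L ^ (E + U + 4) := by rw [pow_add, pow_add]
  have hLE : 1 ≤ L ^ E := one_le_pow₀ hL1
  have hLU : 1 ≤ L ^ U := one_le_pow₀ hL1
  have b1 : 100 * (L ^ E * L ^ U * L ^ 4) ≤ s := by rw [hEU]; exact a4
  have hs1 : 1 ≤ s := by
    have : (1 : ℝ) ≤ 100 * (L ^ E * L ^ U * L ^ 4) := by
      have h5 : (1 : ℝ) ≤ L ^ E * L ^ U * L ^ 4 := by
        have := one_le_mul_of_one_le_of_one_le (one_le_mul_of_one_le_of_one_le hLE hLU) (one_le_pow₀ (n := 4) hL1)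
        exact this
      linarith
    linarith
  have haN : (a : ℝ) ≤ N := by
    have h5 : L ^ E ≤ s := by
      refine le_trans ?_ b1
      have h6 : 1 ≤ L ^ U * L ^ 4 := one_le_mul_of_one_le_of_one_le hLU (one_le_pow₀ hL1)
      nlinarith
    nlinarith
  have hX2 : (X : ℝ) ≤ 2 * N := by rw [hX]; push_cast; linarith
  have hlX2 : Real.log X ≤ 2 * L := by
    have h5 : Real.log X ≤ Real.log (2 * N) := Real.log_le_log (by exact_mod_cast hX1) hX2
    rw [Real.log_mul (by norm_num) hN0.ne', ← hL] at h5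
    have h6 : Real.log 2 ≤ 1 := by
      have := Real.log_two_lt_d9
      linarith
    linarith
  -- the identity
  have e1 : ∀ m : ℕ, lamz z (m + b) = if ∀ p ∈ pz z, ¬ Q1 ((b : ℤ) - a) p (m + a) then V else 0 := by
    intro m
    have e := not_Q1_iff z ((b : ℤ) - a) (m + a) (m + b) (by push_cast; ring)
    unfold lamz
    rw [hVd]
    by_cases h : ∀ p ∈ pz z, ¬ p ∣ m + b
    · rw [if_pos h, if_pos (e.2 h)]
    · rw [if_neg h, if_neg (fun h' => h (e.1 h'))]
  obtain ⟨ν, hν⟩ : ∃ ν : ℕ → ℝ, ν = fun n => if ∀ p ∈ pz z, ¬ Q1 ((b : ℤ) - a) p n then V else 0 := ⟨_, rfl⟩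
  have hν0 : ∀ n, 0 ≤ ν n := by intro n; rw [hν]; simp only; split_ifs <;> linarith
  have hν1 : ∀ n, ν n ≤ V := by intro n; rw [hν]; simp only; split_ifs <;> linarith
  have e2 : ∑ m ∈ Icc 1 N, tht (m + a) * lamz z (m + b) = ∑ n ∈ Ioc a X, tht n * ν n := by
    rw [hX, ← shift_sum N a (fun n => tht n * ν n)]
    apply sum_congr rfl
    intro m _
    rw [e1, hν]
  have e3 := split_sum X a (by omega) (fun n => ArithmeticFunction.vonMangoldt n * ν n)
  have e4 : ∑ n ∈ Icc 1 X, ArithmeticFunction.vonMangoldt n * ν n =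
      V * ∑ n ∈ (Icc 1 X).filter (fun n : ℕ => ∀ p ∈ pz z, ¬ Q1 ((b : ℤ) - a) p n), ArithmeticFunction.vonMangoldt n := by
    rw [sum_filter, mul_sum]
    apply sum_congr rfl
    intro n _
    rw [hν]
    simp only
    split_ifs <;> ring
  -- the three errors
  have f1 : |V * ∑ n ∈ (Icc 1 X).filter (fun n : ℕ => ∀ p ∈ pz z, ¬ Q1 ((b : ℤ) - a) p n), ArithmeticFunction.vonMangoldt n - X * g| ≤
      V * (X / Real.log X ^ (U + 2)) := by
    have e : V * ∑ n ∈ (Icc 1 X).filter (fun n : ℕ => ∀ p ∈ pz z, ¬ Q1 ((b : ℤ) - a) p n), ArithmeticFunction.vonMangoldt n - X * g =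
        V * (∑ n ∈ (Icc 1 X).filter (fun n : ℕ => ∀ p ∈ pz z, ¬ Q1 ((b : ℤ) - a) p n), ArithmeticFunction.vonMangoldt n -
          X * (Vz z * g)) := by
      rw [hVd]
      have := (Vz_pos z).ne'
      field_simp
    rw [e, abs_mul, abs_of_pos hV]
    exact mul_le_mul_of_nonneg_left a1 hV.le
  have f2 : 0 ≤ ∑ n ∈ Icc 1 a, ArithmeticFunction.vonMangoldt n * ν n ∧
      ∑ n ∈ Icc 1 a, ArithmeticFunction.vonMangoldt n * ν n ≤ a * (2 * L * V) := by
    refine ⟨sum_nonneg fun n _ => mul_nonneg ArithmeticFunction.vonMangoldt_nonneg (hν0 n), ?_⟩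
    have : ∀ n ∈ Icc 1 a, ArithmeticFunction.vonMangoldt n * ν n ≤ 2 * L * V := by
      intro n hn
      rw [mem_Icc] at hn
      apply mul_le_mul _ (hν1 n) (hν0 n) (by positivity)
      refine ArithmeticFunction.vonMangoldt_le_log.trans ((Real.log_le_log (by exact_mod_cast hn.1) ?_).trans hlX2)
      have : n ≤ X := by omega
      exact_mod_cast this
    refine (sum_le_sum this).trans ?_
    rw [sum_const, Nat.card_Icc, Nat.add_sub_cancel, nsmul_eq_mul]
  have f3 : 0 ≤ ∑ n ∈ Ioc a X, (ArithmeticFunction.vonMangoldt n - tht n) * ν n ∧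
      ∑ n ∈ Ioc a X, (ArithmeticFunction.vonMangoldt n - tht n) * ν n ≤ V * (2 * √(X : ℝ) * Real.log X) := by
    refine ⟨sum_nonneg fun n _ => mul_nonneg (by linarith [tht_le n]) (hν0 n), ?_⟩
    calc ∑ n ∈ Ioc a X, (ArithmeticFunction.vonMangoldt n - tht n) * ν n ≤
        ∑ n ∈ Ioc a X, V * (ArithmeticFunction.vonMangoldt n - tht n) := by
          apply sum_le_sum
          intro n _
          rw [mul_comm V]
          exact mul_le_mul_of_nonneg_left (hν1 n) (by linarith [tht_le n])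
      _ ≤ ∑ n ∈ Icc 1 X, V * (ArithmeticFunction.vonMangoldt n - tht n) := by
          apply sum_le_sum_of_subset_of_nonneg
          · intro n hn
            rw [mem_Ioc] at hn
            rw [mem_Icc]
            omega
          · intro n _ _
            exact mul_nonneg hV.le (by linarith [tht_le n])
      _ = V * ∑ n ∈ Icc 1 X, (ArithmeticFunction.vonMangoldt n - tht n) := by rw [mul_sum]
      _ ≤ _ := mul_le_mul_of_nonneg_left (diff_sum X hX1) hV.le
  have e5 : ∑ n ∈ Ioc a X, tht n * ν n - N * g =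
      (V * ∑ n ∈ (Icc 1 X).filter (fun n : ℕ => ∀ p ∈ pz z, ¬ Q1 ((b : ℤ) - a) p n), ArithmeticFunction.vonMangoldt n - X * g)
      + a * g - ∑ n ∈ Icc 1 a, ArithmeticFunction.vonMangoldt n * ν n -
      ∑ n ∈ Ioc a X, (ArithmeticFunction.vonMangoldt n - tht n) * ν n := by
    have h5 : ∑ n ∈ Ioc a X, (ArithmeticFunction.vonMangoldt n - tht n) * ν n =
        ∑ n ∈ Ioc a X, ArithmeticFunction.vonMangoldt n * ν n - ∑ n ∈ Ioc a X, tht n * ν n := by
      rw [← sum_sub_distrib]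
      apply sum_congr rfl
      intro n _; ring
    rw [h5, ← e4, e3, hX]
    push_cast
    ring
  rw [e2, e5]
  have hsX : √(X : ℝ) ≤ 2 * s := by
    rw [hs]
    have : √(X : ℝ) ≤ √(4 * N) := Real.sqrt_le_sqrt (by linarith)
    rw [Real.sqrt_mul (by norm_num), show √(4 : ℝ) = 2 by
      rw [show (4 : ℝ) = 2 ^ 2 by norm_num, Real.sqrt_sq (by norm_num)]] at this
    exact this
  -- numerical bounds
  have g1 : V * (X / Real.log X ^ (U + 2)) ≤ (1 / 4) * (N / L ^ U) := by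
    calc V * (X / Real.log X ^ (U + 2)) ≤ L * ((2 * N) / L ^ (U + 2)) := by gcongr
      _ = (2 / L) * (N / L ^ U) := by rw [pow_add]; field_simp
      _ ≤ (1 / 4) * (N / L ^ U) := by
          apply mul_le_mul_of_nonneg_right _ (by positivity)
          rw [div_le_div_iff₀ hL0 (by norm_num)]
          linarith
  have key : ∀ y : ℝ, y ≤ 24 * (L ^ E * L ^ 4) * s → y ≤ (1 / 4) * (N / L ^ U) := by
    intro y hy
    refine hy.trans ?_
    rw [← hss, mul_div_assoc', le_div_iff₀ (by positivity)]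
    have h5 := mul_le_mul_of_nonneg_right b1 hs0.le
    have h6 : 0 ≤ L ^ E * L ^ U * L ^ 4 * s := by positivity
    nlinarith
  have hL4 : L ^ 4 = L * (L * (L * L)) := by ring
  have g2 : (a : ℝ) * g ≤ (1 / 4) * (N / L ^ U) := by
    apply key
    calc (a : ℝ) * g ≤ L ^ E * L := mul_le_mul ha (hgV.trans a2) hg0 (by positivity)
      _ ≤ 24 * (L ^ E * L ^ 4) * s := by
          have h5 : L ≤ L ^ 4 := le_self_pow₀ hL1 (by norm_num)
          have h6 : L ^ E * L ≤ L ^ E * L ^ 4 := mul_le_mul_of_nonneg_left h5 (by positivity)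
          have h7 : 0 ≤ L ^ E * L ^ 4 := by positivity
          nlinarith
  have g3 : (a : ℝ) * (2 * L * V) ≤ (1 / 4) * (N / L ^ U) := by
    apply key
    calc (a : ℝ) * (2 * L * V) ≤ L ^ E * (2 * L * L) := by gcongr
      _ ≤ 24 * (L ^ E * L ^ 4) * s := by
          have h5 : L * L ≤ L ^ 4 := by
            rw [← sq]; exact pow_le_pow_right₀ hL1 (by norm_num)
          have h6 : L ^ E * (L * L) ≤ L ^ E * L ^ 4 := mul_le_mul_of_nonneg_left h5 (by positivity)
          have h7 : 0 ≤ L ^ E * L ^ 4 := by positivity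
          nlinarith
  have g4 : V * (2 * √(X : ℝ) * Real.log X) ≤ (1 / 4) * (N / L ^ U) := by
    apply key
    calc V * (2 * √(X : ℝ) * Real.log X) ≤ L * (2 * (2 * s) * (2 * L)) := by gcongr
      _ = 8 * (L * L) * s := by ring
      _ ≤ 24 * (L ^ E * L ^ 4) * s := by
          have h5 : L * L ≤ L ^ E * L ^ 4 := by
            calc L * L = 1 * L ^ 2 := by ring
              _ ≤ L ^ E * L ^ 4 := mul_le_mul hLE (pow_le_pow_right₀ hL1 (by norm_num)) (by positivity) (by positivity)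
          have h6 : L * L * s ≤ L ^ E * L ^ 4 * s := mul_le_mul_of_nonneg_right h5 hs0.le
          have h7 : 0 ≤ L ^ E * L ^ 4 * s := by positivity
          nlinarith
  have f1' := abs_le.1 (f1.trans g1)
  have h5 : 0 ≤ (a : ℝ) * g := by positivity
  have h6 := f2.2.trans g3
  have h7 := f3.2.trans g4
  rw [abs_le]
  constructor <;> linarith [f1'.1, f1'.2, f2.1, f3.1]

end Pool.Agent.L7h72.HW
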