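import Mathlib
import Pool.Agent.L7h72.HW.Lam

set_option autoImplicit false

/-! Prime pairs and the diagonal. -/

namespace Pool.Agent.L7h72.HW

open Finset
open Pool.Agent.H373R2.T7

/-- the number of the primes `p ≤ x` with `p - d` prime -/
noncomputable def pi2 (x : ℝ) (d : ℕ) : ℕ := ((Icc 1 ⌊x⌋₊).filter (fun p : ℕ => p.Prime ∧ (p - d).Prime)).card

theorem pair_le {x : ℝ} (hx : 1 ≤ x) {N H a b : ℕ} (hab : a < b) (hb : b ≤ H) (hN : N + H ≤ ⌊x⌋₊) :
    ∑ m ∈ Icc 1 N, tht (m + a) * tht (m + b) ≤ Real.log x ^ 2 * pi2 x (b - a) := by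
  classical
  have hl : ∀ m ∈ Icc 1 N, ∀ c : ℕ, c ≤ H → tht (m + c) ≤ Real.log x := by
    intro m hm c hc
    rw [mem_Icc] at hm
    refine (tht_le_log _).trans ?_
    apply Real.log_le_log (by exact_mod_cast (by omega : 0 < m + c))
    refine le_trans ?_ (Nat.floor_le (by linarith : (0 : ℝ) ≤ x))
    exact_mod_cast (by omega : m + c ≤ ⌊x⌋₊)
  have h1 : ∀ m ∈ Icc 1 N, tht (m + a) * tht (m + b) ≤ if (m + a).Prime ∧ (m + b).Prime then Real.log x ^ 2 else 0 := by
    intro m hm
    by_cases h : (m + a).Prime ∧ (m + b).Prime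
    · rw [if_pos h, sq]
      exact mul_le_mul (hl m hm a (by omega)) (hl m hm b hb) (tht_nonneg _) (Real.log_nonneg hx)
    · rw [if_neg h]
      have : tht (m + a) = 0 ∨ tht (m + b) = 0 := by
        unfold tht
        by_cases ha : (m + a).Prime
        · right; rw [if_neg (fun hb' => h ⟨ha, hb'⟩)]
        · left; rw [if_neg ha]
      rcases this with h0 | h0 <;> rw [h0] <;> simp
  refine (sum_le_sum h1).trans ?_
  rw [← sum_filter, sum_const, nsmul_eq_mul, mul_comm]
  apply mul_le_mul_of_nonneg_left _ (by positivity)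
  unfold pi2
  have h2 : ((Icc 1 N).filter (fun m => (m + a).Prime ∧ (m + b).Prime)).card ≤
      ((Icc 1 ⌊x⌋₊).filter (fun p : ℕ => p.Prime ∧ (p - (b - a)).Prime)).card := by
    apply card_le_card_of_injOn (fun m => m + b)
    · intro m hm
      rw [mem_coe, mem_filter, mem_Icc] at hm
      rw [mem_coe, mem_filter, mem_Icc]
      simp only
      have e : m + b - (b - a) = m + a := by omega
      rw [e]
      exact ⟨⟨by omega, by omega⟩, hm.2.2, hm.2.1⟩
    · intro m _ m' _ h
      exact Nat.add_right_cancel h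
  exact_mod_cast h2

lemma lamz_one (n : ℕ) : lamz 1 n = 1 := by
  have h : pz 1 = ∅ := by
    rw [eq_empty_iff_forall_notMem]
    intro p hp
    rw [mem_pz] at hp
    have := hp.2.two_le
    omega
  unfold lamz Vz
  rw [h]
  simp

lemma G_one : G 1 0 = 1 := by
  rw [G_zero]
  have := lamz_one 1
  unfold lamz at this
  have h : pz 1 = ∅ := by
    rw [eq_empty_iff_forall_notMem]
    intro p hp
    rw [mem_pz] at hp
    have := hp.2.two_le
    omega
  unfold Vz
  rw [h]
  simp

theorem diag_le (E U : ℕ) : ∃ N0 : ℕ, ∀ N : ℕ, N0 ≤ N → ∀ a : ℕ, (a : ℝ) ≤ Real.log N ^ E → ∀ x : ℝ,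
    1 ≤ x → ((N + a : ℕ) : ℝ) ≤ x →
    ∑ m ∈ Icc 1 N, tht (m + a) * tht (m + a) ≤ Real.log x * (N * (1 + 1 / Real.log N ^ U)) := by
  obtain ⟨N1, h1⟩ := lam E U
  obtain ⟨N2, h2⟩ := ev_L' 1
  refine ⟨N1 + N2, fun N hN a ha x hx hNx => ?_⟩
  have hL := h2 N (by omega)
  have h := h1 N (by omega) 1 le_rfl (by push_cast; exact one_le_pow₀ hL) a a ha
  rw [sub_self, G_one] at h
  simp only [lamz_one, mul_one] at h
  have h3 := (abs_le.1 h).2
  calc ∑ m ∈ Icc 1 N, tht (m + a) * tht (m + a) ≤ ∑ m ∈ Icc 1 N, Real.log x * tht (m + a) := by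
        apply sum_le_sum
        intro m hm
        rw [mem_Icc] at hm
        apply mul_le_mul_of_nonneg_right _ (tht_nonneg _)
        refine (tht_le_log _).trans ?_
        apply Real.log_le_log (by exact_mod_cast (by omega : 0 < m + a))
        refine le_trans ?_ hNx
        exact_mod_cast (by omega : m + a ≤ N + a)
    _ = Real.log x * ∑ m ∈ Icc 1 N, tht (m + a) := by rw [mul_sum]
    _ ≤ _ := by
        apply mul_le_mul_of_nonneg_left _ (Real.log_nonneg hx)
        have : (N : ℝ) * (1 + 1 / Real.log N ^ U) = N + N / Real.log N ^ U := by ring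
        linarith

end Pool.Agent.L7h72.HW
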