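import Mathlib
import Pool.Agent.L7h72.HW.Lam

set_option autoImplicit false

/-! The quadratic form of the correlations of the primes is at least that of the singular series. -/

namespace Pool.Agent.L7h72.HW

open Finset
open Pool.Agent.H373R2.T7

lemma bil (M I : Finset ℕ) (w : ℕ → ℝ) (f g : ℕ → ℕ → ℝ) :
    ∑ m ∈ M, (∑ a ∈ I, w a * f m a) * (∑ b ∈ I, w b * g m b) =
      ∑ a ∈ I, ∑ b ∈ I, w a * w b * ∑ m ∈ M, f m a * g m b := by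
  simp_rw [sum_mul_sum, mul_sum]
  rw [sum_comm]
  apply sum_congr rfl
  intro a _
  rw [sum_comm]
  apply sum_congr rfl
  intro b _
  apply sum_congr rfl
  intro m _
  ring

lemma err (I : Finset ℕ) (w : ℕ → ℝ) (hw : ∀ a, 0 ≤ w a) (F K : ℕ → ℕ → ℝ) (N e : ℝ)
    (h : ∀ a ∈ I, ∀ b ∈ I, |F a b - N * K a b| ≤ e) :
    |∑ a ∈ I, ∑ b ∈ I, w a * w b * F a b - N * ∑ a ∈ I, ∑ b ∈ I, w a * w b * K a b| ≤ (∑ a ∈ I, w a) ^ 2 * e := by
  have e1 : ∑ a ∈ I, ∑ b ∈ I, w a * w b * F a b - N * ∑ a ∈ I, ∑ b ∈ I, w a * w b * K a b =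
      ∑ a ∈ I, ∑ b ∈ I, w a * w b * (F a b - N * K a b) := by
    rw [mul_sum, ← sum_sub_distrib]
    apply sum_congr rfl
    intro a _
    rw [mul_sum, ← sum_sub_distrib]
    apply sum_congr rfl
    intro b _
    ring
  rw [e1]
  have e2 : (∑ a ∈ I, w a) ^ 2 * e = ∑ a ∈ I, ∑ b ∈ I, w a * w b * e := by
    rw [sq, sum_mul_sum, sum_mul]
    apply sum_congr rfl
    intro a _
    rw [sum_mul]
  rw [e2]
  refine (abs_sum_le_sum_abs _ _).trans (sum_le_sum fun a ha => ?_)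
  refine (abs_sum_le_sum_abs _ _).trans (sum_le_sum fun b hb => ?_)
  rw [abs_mul, abs_of_nonneg (mul_nonneg (hw a) (hw b))]
  exact mul_le_mul_of_nonneg_left (h a ha b hb) (mul_nonneg (hw a) (hw b))

/-- the quadratic form of the truncated singular series -/
noncomputable def TG (z H : ℕ) (w : ℕ → ℝ) : ℝ :=
  ∑ a ∈ range (H + 1), ∑ b ∈ range (H + 1), w a * w b * G z ((b : ℤ) - a)

theorem quad (B U : ℕ) : ∃ N0 : ℕ, ∀ N : ℕ, N0 ≤ N → ∀ z : ℕ, 1 ≤ z → (z : ℝ) ≤ Real.log N ^ B → ∀ H : ℕ,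
    (H : ℝ) ≤ Real.log N ^ B → ∀ w : ℕ → ℝ, (∀ a, 0 ≤ w a) →
    N * ((1 - 1 / Real.log N ^ U) * TG z H w) ≤ ∑ m ∈ Icc 1 N, (∑ a ∈ range (H + 1), w a * tht (m + a)) ^ 2 ∧
      (∑ a ∈ range (H + 1), w a) ^ 2 ≤ 2 * TG z H w := by
  obtain ⟨N1, h1⟩ := one B (U + 1)
  obtain ⟨N2, h2⟩ := two B (U + 1)
  obtain ⟨N3, h3⟩ := lam B (U + 1)
  obtain ⟨N4, h4⟩ := ev_L' 100
  refine ⟨N1 + N2 + N3 + N4 + 1, fun N hN z hz hzB H hH w hw => ?_⟩
  have hN1 : 1 ≤ N := by omega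
  have hN0 : (0 : ℝ) < N := by exact_mod_cast hN1
  have c1 := h1 N (by omega) z hz hzB
  have c2 := h2 N (by omega) z hz hzB
  have c3 := h3 N (by omega) z hz hzB
  have c4 := h4 N (by omega)
  obtain ⟨L, hL⟩ : ∃ L, L = Real.log (N : ℝ) := ⟨_, rfl⟩
  rw [← hL] at c1 c2 c3 c4 hH ⊢
  have hL0 : 0 < L := by linarith
  obtain ⟨δ, hδ⟩ : ∃ δ, δ = 1 / L ^ (U + 1) := ⟨_, rfl⟩
  have hδ0 : 0 < δ := by rw [hδ]; positivity
  have hδ1 : 100 * δ ≤ 1 / L ^ U := by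
    rw [hδ, pow_succ, mul_one_div, div_le_div_iff₀ (by positivity) (by positivity)]
    have : 0 < L ^ U := by positivity
    nlinarith
  have hU1 : 1 / L ^ U ≤ 1 := by
    rw [div_le_one (by positivity)]
    exact one_le_pow₀ (by linarith)
  have hNδ : (N : ℝ) / L ^ (U + 1) = N * δ := by rw [hδ]; ring
  rw [hNδ] at c1 c2 c3
  obtain ⟨I, hI⟩ : ∃ I, I = range (H + 1) := ⟨_, rfl⟩
  obtain ⟨T, hT⟩ : ∃ T, T = TG z H w := ⟨_, rfl⟩
  obtain ⟨W, hW⟩ : ∃ W, W = ∑ a ∈ I, w a := ⟨_, rfl⟩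
  have hTI : T = ∑ a ∈ I, ∑ b ∈ I, w a * w b * G z ((b : ℤ) - a) := by rw [hT, hI]; rfl
  rw [← hT, ← hI, ← hW]
  have hW0 : 0 ≤ W := by rw [hW]; exact sum_nonneg fun a _ => hw a
  have hT0 : 0 ≤ T := by
    rw [hTI]
    exact sum_nonneg fun a _ => sum_nonneg fun b _ => mul_nonneg (mul_nonneg (hw a) (hw b)) (G_nonneg _ _)
  have haI : ∀ a ∈ I, (a : ℝ) ≤ L ^ B := by
    intro a ha
    rw [hI, mem_range] at ha
    refine le_trans ?_ hH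
    exact_mod_cast (by omega : a ≤ H)
  -- the three sums
  obtain ⟨R, hR⟩ : ∃ R : ℕ → ℝ, R = fun m => ∑ a ∈ I, w a * tht (m + a) := ⟨_, rfl⟩
  obtain ⟨Y, hY⟩ : ∃ Y : ℕ → ℝ, Y = fun m => ∑ a ∈ I, w a * lamz z (m + a) := ⟨_, rfl⟩
  have s2 : |∑ m ∈ Icc 1 N, Y m * Y m - N * T| ≤ W ^ 2 * (N * δ) := by
    have e := bil (Icc 1 N) I w (fun m a => lamz z (m + a)) (fun m b => lamz z (m + b))
    rw [hY]
    simp only
    rw [e, hTI, hW]
    exact err I w hw (fun a b => ∑ m ∈ Icc 1 N, lamz z (m + a) * lamz z (m + b)) (fun a b => G z ((b : ℤ) - a)) N (N * δ)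
      (fun a _ b _ => c2 a b)
  have s3 : |∑ m ∈ Icc 1 N, R m * Y m - N * T| ≤ W ^ 2 * (N * δ) := by
    have e := bil (Icc 1 N) I w (fun m a => tht (m + a)) (fun m b => lamz z (m + b))
    rw [hY, hR]
    simp only
    rw [e, hTI, hW]
    exact err I w hw (fun a b => ∑ m ∈ Icc 1 N, tht (m + a) * lamz z (m + b)) (fun a b => G z ((b : ℤ) - a)) N (N * δ)
      (fun a ha b _ => c3 a b (haI a ha))
  have s1 : W * (N - N * δ) ≤ ∑ m ∈ Icc 1 N, Y m := by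
    rw [hY]
    simp only
    rw [sum_comm, hW, sum_mul]
    apply sum_le_sum
    intro a _
    rw [← mul_sum]
    apply mul_le_mul_of_nonneg_left _ (hw a)
    have := (abs_le.1 (c1 a)).1
    linarith
  -- Cauchy
  have k1 : (∑ m ∈ Icc 1 N, Y m) ^ 2 ≤ N * ∑ m ∈ Icc 1 N, Y m * Y m := by
    have h := sum_mul_sq_le_sq_mul_sq (Icc 1 N) (fun _ => (1 : ℝ)) Y
    simp only [one_mul, one_pow, sum_const, Nat.card_Icc, Nat.add_sub_cancel, nsmul_eq_mul, mul_one] at h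
    refine h.trans (le_of_eq ?_)
    congr 1
    apply sum_congr rfl
    intro m _; ring
  have k2 : (∑ m ∈ Icc 1 N, R m * Y m) ^ 2 ≤ (∑ m ∈ Icc 1 N, R m ^ 2) * ∑ m ∈ Icc 1 N, Y m * Y m := by
    have h := sum_mul_sq_le_sq_mul_sq (Icc 1 N) R Y
    refine h.trans (le_of_eq ?_)
    congr 1
    apply sum_congr rfl
    intro m _; ring
  have s2' := abs_le.1 s2
  have s3' := abs_le.1 s3
  have hδs : δ ≤ 1 / 100 := by linarith
  -- lower bound of `T`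
  have hTW : W ^ 2 * (1 - 3 * δ) ≤ T := by
    have h5 : (W * (N - N * δ)) ^ 2 ≤ N * (N * T + W ^ 2 * (N * δ)) := by
      have h6 : 0 ≤ W * (N - N * δ) := by
        apply mul_nonneg hW0
        nlinarith
      calc (W * (N - N * δ)) ^ 2 ≤ (∑ m ∈ Icc 1 N, Y m) ^ 2 := pow_le_pow_left₀ h6 s1 2
        _ ≤ N * ∑ m ∈ Icc 1 N, Y m * Y m := k1
        _ ≤ _ := mul_le_mul_of_nonneg_left (by linarith [s2'.2]) hN0.le
    have h7 : (N : ℝ) ^ 2 * (W ^ 2 * (1 - δ) ^ 2) ≤ (N : ℝ) ^ 2 * (T + W ^ 2 * δ) := by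
      nlinarith [h5]
    have h8 := le_of_mul_le_mul_left h7 (by positivity)
    have h9 : 0 ≤ W ^ 2 * δ ^ 2 := by positivity
    nlinarith
  have hTW2 : W ^ 2 ≤ 2 * T := by
    have h9 : 0 ≤ W ^ 2 := by positivity
    nlinarith
  refine ⟨?_, hTW2⟩
  have hRR : ∑ m ∈ Icc 1 N, (∑ a ∈ I, w a * tht (m + a)) ^ 2 = ∑ m ∈ Icc 1 N, R m ^ 2 := by rw [hR]
  rw [hRR]
  obtain ⟨R2, hR2⟩ : ∃ R2, R2 = ∑ m ∈ Icc 1 N, R m ^ 2 := ⟨_, rfl⟩
  rw [← hR2] at k2 ⊢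
  have hR20 : 0 ≤ R2 := by rw [hR2]; exact sum_nonneg fun m _ => sq_nonneg _
  rcases hT0.eq_or_lt with h0 | hTpos
  · rw [← h0]
    simpa using hR20
  have hWδ : W ^ 2 * (N * δ) ≤ 2 * δ * (N * T) := by
    have : 0 ≤ N * δ := by positivity
    nlinarith
  have m1 : N * T * (1 - 2 * δ) ≤ ∑ m ∈ Icc 1 N, R m * Y m := by linarith [s3'.1]
  have m2 : ∑ m ∈ Icc 1 N, Y m * Y m ≤ N * T * (1 + 2 * δ) := by linarith [s2'.2]
  have hNT : 0 < N * T := by positivity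
  have m3 : (N * T * (1 - 2 * δ)) ^ 2 ≤ R2 * (N * T * (1 + 2 * δ)) := by
    have h6 : 0 ≤ N * T * (1 - 2 * δ) := mul_nonneg hNT.le (by linarith)
    exact (pow_le_pow_left₀ h6 m1 2).trans (k2.trans (mul_le_mul_of_nonneg_left m2 hR20))
  have m4 : (N * T) * (N * T * (1 - 2 * δ) ^ 2) ≤ (N * T) * (R2 * (1 + 2 * δ)) := by nlinarith [m3]
  have m5 := le_of_mul_le_mul_left m4 hNT
  have m6 : (N * T * (1 - 6 * δ)) * (1 + 2 * δ) ≤ R2 * (1 + 2 * δ) := by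
    refine le_trans ?_ m5
    have : 0 ≤ N * T * δ ^ 2 := by positivity
    nlinarith
  have m7 := le_of_mul_le_mul_right m6 (by linarith)
  refine le_trans ?_ m7
  have : N * ((1 - 1 / L ^ U) * T) = N * T * (1 - 1 / L ^ U) := by ring
  rw [this]
  apply mul_le_mul_of_nonneg_left _ hNT.le
  linarith

end Pool.Agent.L7h72.HW
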