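import Mathlib
import Pool.Agent.L7h72.HW.Loc

set_option autoImplicit false

/-! The singular series is at most its truncation. -/

namespace Pool.Agent.L7h72.HW

open Finset
open Pool.Agent.H373R2.T7

/-- the twin prime constant -/
noncomputable def C2 : ℝ := ∏' p : {p : ℕ // p.Prime ∧ 2 < p}, (1 - 1 / (((p.1 : ℕ) : ℝ) - 1) ^ 2)

/-- the singular series -/
noncomputable def S (d : ℕ) : ℝ :=
  if Even d then 2 * C2 * ∏ p ∈ d.primeFactors.filter (fun p : ℕ => 2 < p), (((p : ℝ) - 1) / ((p : ℝ) - 2)) else 0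

lemma fac01 {p : ℕ} (hp : 2 < p) : 0 ≤ 1 - 1 / ((p : ℝ) - 1) ^ 2 ∧ 1 - 1 / ((p : ℝ) - 1) ^ 2 ≤ 1 := by
  have h : (3 : ℝ) ≤ p := by exact_mod_cast hp
  have h1 : (1 : ℝ) ≤ ((p : ℝ) - 1) ^ 2 := by nlinarith
  have h2 : 1 / ((p : ℝ) - 1) ^ 2 ≤ 1 := by rw [div_le_one (by linarith)]; exact h1
  have h3 : 0 ≤ 1 / ((p : ℝ) - 1) ^ 2 := by positivity
  constructor <;> linarith

lemma mult_C2 : Multipliable (fun p : {p : ℕ // p.Prime ∧ 2 < p} => (1 - 1 / (((p.1 : ℕ) : ℝ) - 1) ^ 2)) := by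
  have h1 : Summable (fun p : {p : ℕ // p.Prime ∧ 2 < p} => -(1 / (((p.1 : ℕ) : ℝ) - 1) ^ 2)) := by
    apply Summable.neg
    have h2 : Summable (fun n : ℕ => 4 * (1 / (n : ℝ) ^ 2)) :=
      (Real.summable_one_div_nat_pow.2 (by norm_num)).mul_left 4
    have h3 := h2.comp_injective (Subtype.val_injective (p := fun p : ℕ => p.Prime ∧ 2 < p))
    refine Summable.of_nonneg_of_le (fun p => by positivity) (fun p => ?_) h3
    have hp : (3 : ℝ) ≤ (p.1 : ℝ) := by exact_mod_cast p.2.2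
    simp only [Function.comp]
    rw [mul_one_div, div_le_div_iff₀ (by nlinarith) (by positivity)]
    nlinarith
  have h4 := Real.multipliable_one_add_of_summable h1
  refine h4.congr (fun p => ?_)
  ring

lemma C2_le (z : ℕ) : C2 ≤ ∏ p ∈ (pz z).filter (fun p : ℕ => 2 < p), (1 - 1 / ((p : ℝ) - 1) ^ 2) := by
  obtain ⟨s, hs⟩ : ∃ s, s = Finset.subtype (fun p : ℕ => p.Prime ∧ 2 < p) (pz z) := ⟨_, rfl⟩
  have e : ∏ p ∈ s, (1 - 1 / (((p.1 : ℕ) : ℝ) - 1) ^ 2) =
      ∏ p ∈ (pz z).filter (fun p : ℕ => 2 < p), (1 - 1 / ((p : ℝ) - 1) ^ 2) := by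
    rw [hs, Finset.prod_subtype_eq_prod_filter (s := pz z) (p := fun p : ℕ => p.Prime ∧ 2 < p)
      (f := fun p : ℕ => (1 - 1 / ((p : ℝ) - 1) ^ 2))]
    apply prod_congr _ (fun _ _ => rfl)
    ext p
    rw [mem_filter, mem_filter, mem_pz]
    tauto
  rw [← e]
  have h := mult_C2.hasProd
  refine le_of_tendsto h ?_
  filter_upwards [Filter.eventually_ge_atTop s] with t ht
  rw [← prod_sdiff ht]
  apply mul_le_of_le_one_left
  · exact prod_nonneg fun p _ => (fac01 p.2.2).1
  · exact prod_le_one (fun p _ => (fac01 p.2.2).1) (fun p _ => (fac01 p.2.2).2)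

lemma C2_nonneg : 0 ≤ C2 :=
  ge_of_tendsto mult_C2.hasProd (Filter.Eventually.of_forall fun t => prod_nonneg fun p _ => (fac01 p.2.2).1)

lemma S_nonneg (d : ℕ) : 0 ≤ S d := by
  unfold S
  split_ifs
  · apply mul_nonneg (mul_nonneg (by norm_num) C2_nonneg)
    apply prod_nonneg
    intro p hp
    rw [mem_filter] at hp
    have : (3 : ℝ) ≤ p := by exact_mod_cast hp.2
    exact div_nonneg (by linarith) (by linarith)
  · exact le_rfl

theorem S_le_G {d z : ℕ} (hd : 1 ≤ d) (hdz : d ≤ z) : S d ≤ G z (d : ℤ) := by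
  unfold S
  split_ifs with he
  · have h2z : 2 ∈ pz z := by
      rw [mem_pz]
      refine ⟨?_, Nat.prime_two⟩
      rcases he with ⟨k, hk⟩
      omega
    have hsplit : ∀ F : ℕ → ℝ, ∏ p ∈ pz z, F p = F 2 * ∏ p ∈ (pz z).filter (fun p : ℕ => 2 < p), F p := by
      intro F
      rw [← mul_prod_erase (pz z) F h2z]
      congr 1
      apply prod_congr _ (fun _ _ => rfl)
      ext p
      rw [mem_erase, mem_filter]
      constructor
      · rintro ⟨h1, h2⟩
        have := (mem_pz.1 h2).2.two_le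
        exact ⟨h2, by omega⟩
      · rintro ⟨h1, h2⟩
        exact ⟨by omega, h1⟩
    have hG : G z (d : ℤ) = 2 * ∏ p ∈ (pz z).filter (fun p : ℕ => 2 < p), ((1 - 1 / ((p : ℝ) - 1) ^ 2) *
        (if p ∣ d then ((p : ℝ) - 1) / ((p : ℝ) - 2) else 1)) := by
      unfold G Vz
      rw [← prod_inv_distrib, ← prod_mul_distrib, hsplit]
      congr 1
      · have : lc 2 (d : ℤ) = 0 := by
          unfold lc
          rw [if_pos]
          exact_mod_cast he.two_dvd
        rw [this]
        norm_num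
      · apply prod_congr rfl
        intro p hp
        rw [mem_filter] at hp
        have h3 : (3 : ℝ) ≤ p := by exact_mod_cast hp.2
        have n0 : (p : ℝ) ≠ 0 := by linarith
        have n1 : (p : ℝ) - 1 ≠ 0 := by intro h; linarith
        have n2 : (p : ℝ) - 2 ≠ 0 := by intro h; linarith
        unfold lc
        by_cases h : p ∣ d
        · rw [if_pos h, if_pos (by exact_mod_cast h)]
          have e1 : (1 - 1 / (p : ℝ))⁻¹ = p / (p - 1) := by
            rw [one_sub_div n0, inv_div]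
          rw [e1]
          field_simp
          ring
        · rw [if_neg h, if_neg (by exact_mod_cast h)]
          have e1 : (1 - 1 / (p : ℝ))⁻¹ = p / (p - 1) := by
            rw [one_sub_div n0, inv_div]
          rw [e1]
          field_simp
          ring
    rw [hG, prod_mul_distrib, ← prod_filter, mul_assoc]
    apply mul_le_mul_of_nonneg_left _ (by norm_num : (0 : ℝ) ≤ 2)
    have e3 : d.primeFactors.filter (fun p : ℕ => 2 < p) = ((pz z).filter (fun p : ℕ => 2 < p)).filter (fun p => p ∣ d) := by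
      ext p
      rw [mem_filter, mem_filter, mem_filter, mem_pz, Nat.mem_primeFactors]
      constructor
      · rintro ⟨⟨h1, h2, _⟩, h4⟩
        exact ⟨⟨⟨(Nat.le_of_dvd hd h2).trans hdz, h1⟩, h4⟩, h2⟩
      · rintro ⟨⟨⟨_, h1⟩, h4⟩, h2⟩
        exact ⟨⟨h1, h2, by omega⟩, h4⟩
    rw [e3]
    apply mul_le_mul_of_nonneg_right (C2_le z)
    apply prod_nonneg
    intro p hp
    rw [mem_filter, mem_filter] at hp
    have : (3 : ℝ) ≤ p := by exact_mod_cast hp.1.2
    exact div_nonneg (by linarith) (by linarith)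
  · exact G_nonneg _ _

end Pool.Agent.L7h72.HW
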