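import Mathlib
import Pool.Agent.L7h72.HW.Quad
import Pool.Agent.L7h72.HW.Pi2
import Pool.Agent.L7h72.HW.Ser

set_option autoImplicit false

/-! The weighted inequality for prime pairs. -/

namespace Pool.Agent.L7h72.HW

open Finset Filter
open Pool.Agent.H373R2.T7

/-- the pairs `a < b` -/
def PP (H : ℕ) : Finset (ℕ × ℕ) := (range (H + 1) ×ˢ range (H + 1)).filter (fun y => y.1 < y.2)

lemma mem_PP {H : ℕ} {y : ℕ × ℕ} : y ∈ PP H ↔ y.1 < y.2 ∧ y.2 ≤ H := by
  unfold PP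
  rw [mem_filter, mem_product, mem_range, mem_range]
  omega

lemma split_sym (H : ℕ) (F : ℕ → ℕ → ℝ) (hF : ∀ a b, F a b = F b a) :
    ∑ a ∈ range (H + 1), ∑ b ∈ range (H + 1), F a b = ∑ a ∈ range (H + 1), F a a + 2 * ∑ y ∈ PP H, F y.1 y.2 := by
  obtain ⟨I, hI⟩ : ∃ I, I = range (H + 1) := ⟨_, rfl⟩
  rw [← sum_product' (f := F)]
  unfold PP
  rw [← hI]
  rw [← sum_filter_add_sum_filter_not (I ×ˢ I) (fun y => y.1 < y.2)]
  rw [← sum_filter_add_sum_filter_not ((I ×ˢ I).filter (fun y => ¬ y.1 < y.2)) (fun y => y.1 = y.2)]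
  have e1 : ∑ y ∈ ((I ×ˢ I).filter (fun y => ¬ y.1 < y.2)).filter (fun y => y.1 = y.2), F y.1 y.2 = ∑ a ∈ I, F a a := by
    symm
    apply sum_bij (fun a _ => (a, a))
    · intro a ha
      rw [mem_filter, mem_filter, mem_product]
      exact ⟨⟨⟨ha, ha⟩, lt_irrefl _⟩, rfl⟩
    · intro a _ b _ h
      exact (Prod.ext_iff.1 h).1
    · rintro ⟨a, b⟩ h
      rw [mem_filter, mem_filter, mem_product] at h
      exact ⟨a, h.1.1.1, Prod.ext rfl h.2⟩
    · intro a _; rfl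
  have e2 : ∑ y ∈ ((I ×ˢ I).filter (fun y => ¬ y.1 < y.2)).filter (fun y => ¬ y.1 = y.2), F y.1 y.2 =
      ∑ y ∈ (I ×ˢ I).filter (fun y => y.1 < y.2), F y.1 y.2 := by
    apply sum_bij (fun y _ => (y.2, y.1))
    · rintro ⟨a, b⟩ h
      rw [mem_filter, mem_filter, mem_product] at h
      rw [mem_filter, mem_product]
      simp only at h ⊢
      exact ⟨⟨h.1.1.2, h.1.1.1⟩, by omega⟩
    · rintro ⟨a, b⟩ _ ⟨c, d⟩ _ h
      simp only [Prod.mk.injEq] at h ⊢
      exact ⟨h.2, h.1⟩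
    · rintro ⟨a, b⟩ h
      rw [mem_filter, mem_product] at h
      simp only at h
      refine ⟨(b, a), ?_, rfl⟩
      rw [mem_filter, mem_filter, mem_product]
      simp only
      exact ⟨⟨⟨h.1.2, h.1.1⟩, by omega⟩, by omega⟩
    · rintro ⟨a, b⟩ _
      exact hF a b
  rw [e1, e2]
  ring

/-- the quadratic form of the truncated singular series without the diagonal -/
noncomputable def PG (z H : ℕ) (w : ℕ → ℝ) : ℝ := ∑ y ∈ PP H, w y.1 * w y.2 * G z ((y.2 - y.1 : ℕ) : ℤ)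

lemma PG_nonneg (z H : ℕ) {w : ℕ → ℝ} (hw : ∀ a, 0 ≤ w a) : 0 ≤ PG z H w :=
  sum_nonneg fun y _ => mul_nonneg (mul_nonneg (hw _) (hw _)) (G_nonneg _ _)

lemma TG_eq (z H : ℕ) (w : ℕ → ℝ) : TG z H w = (Vz z)⁻¹ * ∑ a ∈ range (H + 1), w a ^ 2 + 2 * PG z H w := by
  unfold TG
  rw [split_sym H (fun a b => w a * w b * G z ((b : ℤ) - a))]
  · congr 1
    · rw [mul_sum]
      apply sum_congr rfl
      intro a _
      rw [sub_self, G_zero]
      ring
    · congr 1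
      unfold PG
      apply sum_congr rfl
      intro y hy
      rw [mem_PP] at hy
      congr 2
      rw [Nat.cast_sub hy.1.le]
  · intro a b
    have : G z ((b : ℤ) - a) = G z ((a : ℤ) - b) := by rw [← G_neg, neg_sub]
    rw [this]
    ring

lemma Vz_half {z : ℕ} (hz : 2 ≤ z) : 2 ≤ (Vz z)⁻¹ := by
  rw [le_inv_comm₀ (by norm_num) (Vz_pos z)]
  have h2 : 2 ∈ pz z := mem_pz.2 ⟨hz, Nat.prime_two⟩
  unfold Vz
  rw [← mul_prod_erase _ _ h2]
  have h3 : ∏ p ∈ (pz z).erase 2, (1 - 1 / (p : ℝ)) ≤ 1 := by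
    apply prod_le_one
    · intro p hp
      have : (2 : ℝ) ≤ p := by exact_mod_cast (mem_pz.1 (mem_of_mem_erase hp)).2.two_le
      rw [sub_nonneg, div_le_one (by linarith)]
      linarith
    · intro p _
      have : (0 : ℝ) ≤ 1 / p := by positivity
      linarith
  push_cast
  linarith

theorem core (B U : ℕ) : ∃ X : ℝ, ∀ x : ℝ, X ≤ x → ∀ H : ℕ, (H : ℝ) ≤ Real.log x ^ B → ∀ w : ℕ → ℝ, (∀ a, 0 ≤ w a) →
    x * ((1 - 1 / Real.log x ^ U) * PG (H + 2) H w - Real.log x / 2 * ∑ a ∈ range (H + 1), w a ^ 2) ≤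
      Real.log x ^ 2 * ∑ y ∈ PP H, w y.1 * w y.2 * pi2 x (y.2 - y.1) ∧
    (∑ a ∈ range (H + 1), w a) ^ 2 ≤ 2 * (Real.log x * ∑ a ∈ range (H + 1), w a ^ 2 + 2 * PG (H + 2) H w) := by
  obtain ⟨N1, h1⟩ := quad (B + 2) (U + 1)
  obtain ⟨N2, h2⟩ := diag_le (B + 2) 2
  obtain ⟨N3, h3⟩ := Vz_inv_small (B + 2)
  have t1 := Real.tendsto_log_atTop.eventually_ge_atTop ((2 : ℝ) ^ (U + B + 4) + 16)
  have t2 := (Real.isLittleO_pow_log_id_atTop (n := U + B + 2)).bound (show (0 : ℝ) < 1 / 4 by norm_num)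
  have t3 := eventually_ge_atTop (2 * ((N1 : ℝ) + N2 + N3) + 16)
  obtain ⟨X, hX⟩ := eventually_atTop.1 (t1.and (t2.and t3))
  refine ⟨X, fun x hx H hH w hw => ?_⟩
  obtain ⟨u1, u2, u3⟩ := hX x hx
  have hn1 : (0 : ℝ) ≤ N1 := Nat.cast_nonneg _
  have hn2 : (0 : ℝ) ≤ N2 := Nat.cast_nonneg _
  have hn3 : (0 : ℝ) ≤ N3 := Nat.cast_nonneg _
  have hx16 : 16 ≤ x := by linarith
  have hx0 : 0 < x := by linarith
  obtain ⟨l, hl⟩ : ∃ l, l = Real.log x := ⟨_, rfl⟩
  rw [← hl] at u1 u2 hH ⊢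
  have hpow : (1 : ℝ) ≤ 2 ^ (U + B + 4) := one_le_pow₀ (by norm_num)
  have hl16 : 16 ≤ l := by linarith
  have hl0 : 0 < l := by linarith
  have hl1 : 1 ≤ l := by linarith
  rw [Real.norm_eq_abs, Real.norm_eq_abs, abs_of_nonneg (by positivity), id, abs_of_pos hx0] at u2
  have hlU : 1 ≤ l ^ U := one_le_pow₀ hl1
  have hlB : 1 ≤ l ^ B := one_le_pow₀ hl1
  have hUB : l ^ (U + B + 2) = l ^ U * l ^ B * l ^ 2 := by rw [pow_add, pow_add]
  have hl2 : 256 ≤ l ^ 2 := by nlinarith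
  -- the number `N`
  have hH2 : (H : ℝ) + 2 ≤ x / (4 * l ^ U) := by
    rw [le_div_iff₀ (by positivity)]
    have h5 : (H : ℝ) + 2 ≤ 3 * l ^ B := by linarith
    calc ((H : ℝ) + 2) * (4 * l ^ U) ≤ (3 * l ^ B) * (4 * l ^ U) := by gcongr
      _ = 12 * (l ^ U * l ^ B) := by ring
      _ ≤ l ^ U * l ^ B * l ^ 2 := by
          have h6 : 0 ≤ l ^ U * l ^ B := by positivity
          have h7 := mul_le_mul_of_nonneg_left (show (12 : ℝ) ≤ l ^ 2 by linarith) h6
          linarith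
      _ = l ^ (U + B + 2) := hUB.symm
      _ ≤ x := by linarith
  have hHx : (H : ℝ) + 2 ≤ x / 4 := by
    refine hH2.trans ?_
    apply div_le_div_of_nonneg_left hx0.le (by norm_num)
    linarith
  have hfl : x - 1 < ⌊x⌋₊ := Nat.sub_one_lt_floor x
  have hfl2 : (⌊x⌋₊ : ℝ) ≤ x := Nat.floor_le hx0.le
  have hHf : H ≤ ⌊x⌋₊ := by
    have : (H : ℝ) ≤ ⌊x⌋₊ := by linarith
    exact_mod_cast this
  obtain ⟨N, hN⟩ : ∃ N, N = ⌊x⌋₊ - H := ⟨_, rfl⟩
  have hNH : N + H = ⌊x⌋₊ := by omega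
  have hNr : (N : ℝ) = ⌊x⌋₊ - H := by rw [hN, Nat.cast_sub hHf]
  have hNx : (N : ℝ) ≤ x := by
    have : (0 : ℝ) ≤ H := Nat.cast_nonneg _
    linarith
  have hNlow : x - (H + 2) ≤ N := by linarith
  have hN2 : x / 2 ≤ N := by linarith
  have hN0 : (0 : ℝ) < N := by linarith
  have hN1' : N1 ≤ N := by
    have : (N1 : ℝ) ≤ N := by linarith
    exact_mod_cast this
  have hN2' : N2 ≤ N := by
    have : (N2 : ℝ) ≤ N := by linarith
    exact_mod_cast this
  have hN3' : N3 ≤ N := by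
    have : (N3 : ℝ) ≤ N := by linarith
    exact_mod_cast this
  obtain ⟨L, hL⟩ : ∃ L, L = Real.log (N : ℝ) := ⟨_, rfl⟩
  have hLl : L ≤ l := by rw [hL, hl]; exact Real.log_le_log hN0 hNx
  have hlL : l / 2 ≤ L := by
    have h5 : √x ≤ N := by
      refine le_trans ?_ hN2
      rw [Real.sqrt_le_left (by linarith)]
      nlinarith
    have h6 : Real.log (√x) ≤ L := by rw [hL]; exact Real.log_le_log (Real.sqrt_pos.2 hx0) h5
    rw [Real.log_sqrt hx0.le, ← hl] at h6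
    exact h6
  have hL8 : 8 ≤ L := by linarith
  have hL0 : 0 < L := by linarith
  have hz : ((H + 2 : ℕ) : ℝ) ≤ L ^ (B + 2) := by
    push_cast
    calc (H : ℝ) + 2 ≤ 3 * l ^ B := by linarith
      _ ≤ (l / 2) ^ (B + 2) := by
          rw [div_pow, le_div_iff₀ (by positivity), pow_add l B 2]
          have h6 : 3 * (2 : ℝ) ^ (B + 2) ≤ l ^ 2 := by
            have h7 : (2 : ℝ) ^ (B + 2) ≤ 2 ^ (U + B + 4) := pow_le_pow_right₀ (by norm_num) (by omega)
            have h8 : 16 * l ≤ l ^ 2 := by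
              rw [sq]
              exact mul_le_mul_of_nonneg_right hl16 hl0.le
            linarith
          have h8 : 0 ≤ l ^ B := by positivity
          have h9 := mul_le_mul_of_nonneg_left h6 h8
          linarith
      _ ≤ L ^ (B + 2) := pow_le_pow_left₀ (by positivity) hlL _
  have hHL : (H : ℝ) ≤ L ^ (B + 2) := by
    refine le_trans ?_ hz
    push_cast
    linarith
  have c1 := h1 N hN1' (H + 2) (by omega) (by rw [← hL]; exact hz) H (by rw [← hL]; exact hHL) w hw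
  have c2 := h2 N hN2'
  have c3 := h3 N hN3' (H + 2) (by omega) (by rw [← hL]; exact hz)
  rw [← hL] at c1 c2 c3
  obtain ⟨g, hg⟩ : ∃ g, g = (Vz (H + 2))⁻¹ := ⟨_, rfl⟩
  have hg2 : 2 ≤ g := by rw [hg]; exact Vz_half (by omega)
  rw [← hg] at c3
  obtain ⟨W2, hW2⟩ : ∃ W2, W2 = ∑ a ∈ range (H + 1), w a ^ 2 := ⟨_, rfl⟩
  have hW20 : 0 ≤ W2 := by rw [hW2]; exact sum_nonneg fun a _ => sq_nonneg _
  obtain ⟨P, hP⟩ : ∃ P, P = PG (H + 2) H w := ⟨_, rfl⟩
  have hP0 : 0 ≤ P := by rw [hP]; exact PG_nonneg _ _ hw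
  have hT : TG (H + 2) H w = g * W2 + 2 * P := by rw [TG_eq, ← hg, ← hW2, ← hP]
  rw [hT] at c1
  rw [← hW2, ← hP]
  refine ⟨?_, ?_⟩
  swap
  · refine c1.2.trans ?_
    have : g * W2 ≤ l * W2 := mul_le_mul_of_nonneg_right (c3.trans hLl) hW20
    linarith
  -- the square
  obtain ⟨Q, hQ⟩ : ∃ Q, Q = ∑ y ∈ PP H, w y.1 * w y.2 * (pi2 x (y.2 - y.1) : ℝ) := ⟨_, rfl⟩
  rw [← hQ]
  have k1 : ∑ m ∈ Icc 1 N, (∑ a ∈ range (H + 1), w a * tht (m + a)) ^ 2 ≤
      W2 * (l * (N * (1 + 1 / L ^ 2))) + 2 * (l ^ 2 * Q) := by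
    have e1 : ∑ m ∈ Icc 1 N, (∑ a ∈ range (H + 1), w a * tht (m + a)) ^ 2 =
        ∑ m ∈ Icc 1 N, (∑ a ∈ range (H + 1), w a * tht (m + a)) * (∑ b ∈ range (H + 1), w b * tht (m + b)) := by
      apply sum_congr rfl
      intro m _; ring
    rw [e1, bil (Icc 1 N) (range (H + 1)) w (fun m a => tht (m + a)) (fun m b => tht (m + b)),
      split_sym H (fun a b => w a * w b * ∑ m ∈ Icc 1 N, tht (m + a) * tht (m + b))]
    · apply add_le_add
      · rw [hW2, sum_mul]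
        apply sum_le_sum
        intro a ha
        rw [mem_range] at ha
        have haH : (a : ℝ) ≤ H := by exact_mod_cast (by omega : a ≤ H)
        have h5 := c2 a (haH.trans hHL) x (by linarith) (by
          refine le_trans ?_ hfl2
          exact_mod_cast (by omega : N + a ≤ ⌊x⌋₊))
        rw [← hl] at h5
        have e : w a * w a = w a ^ 2 := by ring
        rw [e]
        exact mul_le_mul_of_nonneg_left h5 (sq_nonneg _)
      · apply mul_le_mul_of_nonneg_left _ (by norm_num : (0 : ℝ) ≤ 2)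
        rw [hQ, mul_sum]
        apply sum_le_sum
        intro y hy
        rw [mem_PP] at hy
        have h5 := pair_le (x := x) (by linarith) (N := N) (H := H) hy.1 hy.2 (by omega)
        rw [← hl] at h5
        calc w y.1 * w y.2 * ∑ m ∈ Icc 1 N, tht (m + y.1) * tht (m + y.2) ≤
            w y.1 * w y.2 * (l ^ 2 * pi2 x (y.2 - y.1)) :=
              mul_le_mul_of_nonneg_left h5 (mul_nonneg (hw _) (hw _))
          _ = _ := by ring
    · intro a b
      have : ∑ m ∈ Icc 1 N, tht (m + a) * tht (m + b) = ∑ m ∈ Icc 1 N, tht (m + b) * tht (m + a) := by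
        apply sum_congr rfl
        intro m _; ring
      rw [this]
      ring
  have k2 := c1.1.trans k1
  -- numbers
  have hη : 1 / L ^ (U + 1) ≤ 1 / (4 * l ^ U) := by
    apply one_div_le_one_div_of_le (by positivity)
    calc 4 * l ^ U ≤ (l / 2) ^ (U + 1) := by
          rw [div_pow, le_div_iff₀ (by positivity), pow_succ l U]
          have h6 : 4 * (2 : ℝ) ^ (U + 1) ≤ l := by
            have h7 : (2 : ℝ) ^ (U + 3) ≤ 2 ^ (U + B + 4) := pow_le_pow_right₀ (by norm_num) (by omega)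
            have h8 : (2 : ℝ) ^ (U + 3) = 4 * 2 ^ (U + 1) := by rw [pow_add, pow_add]; norm_num; ring
            linarith
          have h8 : 0 ≤ l ^ U := by positivity
          have h9 := mul_le_mul_of_nonneg_left h6 h8
          linarith
      _ ≤ L ^ (U + 1) := pow_le_pow_left₀ (by positivity) hlL _
  obtain ⟨η, hηd⟩ : ∃ η, η = 1 / L ^ (U + 1) := ⟨_, rfl⟩
  obtain ⟨κ, hκd⟩ : ∃ κ, κ = 1 / l ^ U := ⟨_, rfl⟩
  have hκ : 1 / (4 * l ^ U) = κ / 4 := by rw [hκd]; field_simp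
  rw [← hηd] at k2 hη
  rw [hκ] at hη
  rw [← hκd]
  have hη0 : 0 ≤ η := by rw [hηd]; positivity
  have hκ0 : 0 ≤ κ := by rw [hκd]; positivity
  have hκ1 : κ ≤ 1 := by rw [hκd, div_le_one (by positivity)]; exact hlU
  have hNκ : x * (1 - κ / 4) ≤ N := by
    have h5 : x / (4 * l ^ U) = x * (κ / 4) := by rw [← hκ]; ring
    rw [h5] at hH2
    linarith
  have hNη : x * (1 - κ) ≤ N * (1 - η) := by
    have h6 : 0 ≤ x * κ ^ 2 := by positivity
    have h7 : 0 ≤ x * κ := by positivity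
    calc x * (1 - κ) ≤ x * (1 - κ / 4) * (1 - κ / 4) := by
          have e : x * (1 - κ / 4) * (1 - κ / 4) = x - (x * κ) / 2 + (x * κ ^ 2) / 16 := by ring
          rw [e]
          linarith
      _ ≤ N * (1 - η) := mul_le_mul hNκ (by linarith) (by linarith) hN0.le
  have hL2 : l * (1 / L ^ 2) ≤ 1 := by
    rw [mul_one_div, div_le_one (by positivity), sq]
    have h5 : 8 * (l / 2) ≤ L * L := mul_le_mul hL8 hlL (by positivity) hL0.le
    linarith
  have m1 : N * ((1 - η) * (g * W2)) ≥ N * W2 := by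
    have h5 : (3 / 4 : ℝ) * 2 ≤ (1 - η) * g := mul_le_mul (by linarith) hg2 (by norm_num) (by linarith)
    have h6 : 0 ≤ N * W2 := by positivity
    have h7 := mul_le_mul_of_nonneg_right h5 h6
    have e : N * ((1 - η) * (g * W2)) = (1 - η) * g * (N * W2) := by ring
    rw [e]
    linarith
  have m2 : W2 * (l * (N * (1 + 1 / L ^ 2))) ≤ W2 * (l * x) + N * W2 := by
    have h5 : 0 ≤ W2 * N := by positivity
    have h6 : W2 * (l * (N * (1 + 1 / L ^ 2))) = W2 * (l * N) + (W2 * N) * (l * (1 / L ^ 2)) := by ring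
    rw [h6]
    have h7 : W2 * (l * N) ≤ W2 * (l * x) := by gcongr
    have h8 := mul_le_mul_of_nonneg_left hL2 h5
    linarith
  have m3 : x * (1 - κ) * (2 * P) ≤ N * ((1 - η) * (2 * P)) := by
    have := mul_le_mul_of_nonneg_right hNη (show 0 ≤ 2 * P by linarith)
    linarith
  have e : N * ((1 - η) * (g * W2 + 2 * P)) = N * ((1 - η) * (g * W2)) + N * ((1 - η) * (2 * P)) := by ring
  rw [e] at k2
  have e2 : x * (1 - κ) * (2 * P) = 2 * (x * ((1 - κ) * P)) := by ring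
  rw [e2] at m3
  have e3 : x * ((1 - κ) * P - l / 2 * W2) = x * ((1 - κ) * P) - (W2 * (l * x)) / 2 := by ring
  rw [e3]
  linarith

end Pool.Agent.L7h72.HW
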