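import Mathlib
import Pool.Agent.L7h72.HW.Core
import Pool.Agent.L7h72.HW.Clique

set_option autoImplicit false

/-! Many good differences in every set of shifts. -/

namespace Pool.Agent.L7h72.HW

open Finset Filter

/-- the difference is even and the lower half of the formula holds up to `δ` -/
def good (x δ : ℝ) (a b : ℕ) : Prop :=
  Even (b - a) ∧ (1 - δ) * (S (b - a) * x / Real.log x ^ 2) ≤ (pi2 x (b - a) : ℝ)

/-- the pairs `a < b` of a set -/
def prA (A : Finset ℕ) : Finset (ℕ × ℕ) := (A ×ˢ A).filter (fun y => y.1 < y.2)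

lemma sum_PP (H : ℕ) (A : Finset ℕ) (hA : ∀ a ∈ A, a ≤ H) (w : ℕ → ℝ) (hw : w = fun a => if a ∈ A then 1 else 0)
    (f : ℕ × ℕ → ℝ) : ∑ y ∈ PP H, w y.1 * w y.2 * f y = ∑ y ∈ prA A, f y := by
  classical
  have hsub : prA A ⊆ PP H := by
    intro y hy
    unfold prA at hy
    rw [mem_filter, mem_product] at hy
    rw [mem_PP]
    exact ⟨hy.2, hA _ hy.1.2⟩
  rw [← sum_subset hsub]
  · apply sum_congr rfl
    intro y hy
    unfold prA at hy
    rw [mem_filter, mem_product] at hy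
    rw [hw]
    simp only
    rw [if_pos hy.1.1, if_pos hy.1.2]
    ring
  · intro y hy hy'
    rw [mem_PP] at hy
    unfold prA at hy'
    rw [mem_filter, mem_product, not_and_or, not_and_or] at hy'
    rw [hw]
    simp only
    rcases hy' with (h | h) | h
    · rw [if_neg h]; ring
    · rw [if_neg h]; ring
    · exact absurd hy.1 h

lemma sum_w (H : ℕ) (A : Finset ℕ) (hA : ∀ a ∈ A, a ≤ H) (w : ℕ → ℝ) (hw : w = fun a => if a ∈ A then 1 else 0) :
    ∑ a ∈ range (H + 1), w a = A.card ∧ ∑ a ∈ range (H + 1), w a ^ 2 = A.card := by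
  classical
  have hsub : A ⊆ range (H + 1) := by
    intro a ha
    rw [mem_range]
    have := hA a ha
    omega
  have h1 : ∑ a ∈ range (H + 1), w a = A.card := by
    rw [← sum_subset hsub]
    · rw [hw]
      simp only
      rw [sum_congr rfl (g := fun _ => (1 : ℝ)) (fun a ha => if_pos ha)]
      simp
    · intro a _ ha
      rw [hw]
      simp only
      rw [if_neg ha]
  refine ⟨h1, ?_⟩
  rw [← h1]
  apply sum_congr rfl
  intro a _
  rw [hw]
  simp only
  split_ifs <;> norm_num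

theorem deg (B U : ℕ) {C : ℝ} (hC : 1 ≤ C)
    (hup : ∃ X : ℝ, ∀ x : ℝ, X ≤ x → ∀ d : ℕ, Even d → 1 ≤ d → (d : ℝ) ≤ Real.log x ^ B →
      (pi2 x d : ℝ) * Real.log x ^ 2 ≤ C * Real.log (Real.log x) * x) :
    ∃ X : ℝ, ∀ x : ℝ, X ≤ x → ∀ δ : ℝ, 1 / Real.log x ^ U ≤ δ → δ ≤ 1 → ∀ A : Finset ℕ,
      (∀ a ∈ A, (a : ℝ) ≤ Real.log x ^ B) → 32 * Real.log x ≤ δ * A.card →
      δ / (128 * C * Real.log (Real.log x)) * (A.card : ℝ) ^ 2 ≤ ((prs (good x δ) A).card : ℝ) := by
  classical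
  obtain ⟨X1, h1⟩ := core B (U + 1)
  obtain ⟨X2, h2⟩ := hup
  have t1 := Real.tendsto_log_atTop.eventually_ge_atTop (16 : ℝ)
  have t2 := (Real.tendsto_log_atTop.comp Real.tendsto_log_atTop).eventually_ge_atTop (1 : ℝ)
  have t3 := eventually_ge_atTop (max (max X1 X2) 16)
  obtain ⟨X, hX⟩ := eventually_atTop.1 (t1.and (t2.and t3))
  refine ⟨X, fun x hx δ hδ hδ1 A hA hn => ?_⟩
  obtain ⟨u1, u2, u3⟩ := hX x hx
  simp only [Function.comp] at u2
  have hx1 : X1 ≤ x := (le_max_left _ _).trans ((le_max_left _ _).trans u3)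
  have hx2 : X2 ≤ x := (le_max_right _ _).trans ((le_max_left _ _).trans u3)
  have hx16 : 16 ≤ x := (le_max_right _ _).trans u3
  have hx0 : 0 < x := by linarith
  obtain ⟨H, hH⟩ : ∃ H, H = ⌊Real.log x ^ B⌋₊ := ⟨_, rfl⟩
  have hHl : (H : ℝ) ≤ Real.log x ^ B := by rw [hH]; exact Nat.floor_le (by positivity)
  have hAH : ∀ a ∈ A, a ≤ H := fun a ha => by rw [hH]; exact Nat.le_floor (hA a ha)
  -- the larger parity class
  obtain ⟨A', hA'A, hpar, hcard⟩ : ∃ A' ⊆ A, (∀ a ∈ A', ∀ b ∈ A', a < b → Even (b - a)) ∧ (A.card : ℝ) / 2 ≤ A'.card := by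
    have hs := card_filter_add_card_filter_not (s := A) (fun a : ℕ => a % 2 = 0)
    by_cases hc : (A.card : ℝ) / 2 ≤ ((A.filter (fun a => a % 2 = 0)).card : ℝ)
    · refine ⟨A.filter (fun a => a % 2 = 0), filter_subset _ _, ?_, hc⟩
      intro a ha b hb hab
      rw [mem_filter] at ha hb
      rw [Nat.even_iff]
      omega
    · refine ⟨A.filter (fun a => ¬ a % 2 = 0), filter_subset _ _, ?_, ?_⟩
      · intro a ha b hb hab
        rw [mem_filter] at ha hb
        rw [Nat.even_iff]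
        omega
      · rw [not_le] at hc
        have hs' : ((A.filter (fun a : ℕ => a % 2 = 0)).card : ℝ) + ((A.filter (fun a : ℕ => ¬ a % 2 = 0)).card : ℝ) = A.card := by
          exact_mod_cast hs
        linarith
  obtain ⟨l, hl⟩ : ∃ l, l = Real.log x := ⟨_, rfl⟩
  obtain ⟨w, hw⟩ : ∃ w : ℕ → ℝ, w = fun a => if a ∈ A' then 1 else 0 := ⟨_, rfl⟩
  have hA'H : ∀ a ∈ A', a ≤ H := fun a ha => hAH a (hA'A ha)
  have hw0 : ∀ a, 0 ≤ w a := by intro a; rw [hw]; simp only; split_ifs <;> norm_num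
  obtain ⟨c1, c2⟩ := h1 x hx1 H hHl w hw0
  obtain ⟨s1, s2⟩ := sum_w H A' hA'H w hw
  obtain ⟨P, hP⟩ : ∃ P, P = PG (H + 2) H w := ⟨_, rfl⟩
  have hPQ : P = ∑ y ∈ prA A', G (H + 2) ((y.2 - y.1 : ℕ) : ℤ) := by
    rw [hP]
    unfold PG
    exact sum_PP H A' hA'H w hw (fun y => G (H + 2) ((y.2 - y.1 : ℕ) : ℤ))
  have hQ := sum_PP H A' hA'H w hw (fun y => (pi2 x (y.2 - y.1) : ℝ))
  rw [s1, s2, ← hP, ← hl] at c2
  rw [s2, ← hP, hQ, ← hl] at c1
  rw [← hl] at hδ u1 u2 hn
  obtain ⟨n, hnd⟩ : ∃ n : ℝ, n = A.card := ⟨_, rfl⟩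
  obtain ⟨n', hnd'⟩ : ∃ n' : ℝ, n' = A'.card := ⟨_, rfl⟩
  rw [← hnd, ← hnd'] at hcard
  rw [← hnd'] at c1 c2
  rw [← hnd] at hn
  rw [← hl, ← hnd]
  obtain ⟨M, hM⟩ : ∃ M, M = C * Real.log l := ⟨_, rfl⟩
  have hM1 : 1 ≤ M := by
    rw [hM]
    calc (1 : ℝ) = 1 * 1 := by norm_num
      _ ≤ C * Real.log l := mul_le_mul hC u2 (by norm_num) (by linarith)
  have hl0 : 0 < l := by linarith
  have hδ0 : 0 < δ := lt_of_lt_of_le (by positivity) hδ
  have hn0 : 0 ≤ n := by rw [hnd]; exact Nat.cast_nonneg _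
  have hn'0 : 0 ≤ n' := by rw [hnd']; exact Nat.cast_nonneg _
  have hδn : 16 * l ≤ δ * n' := by
    have := mul_le_mul_of_nonneg_left hcard hδ0.le
    linarith
  have hn'l : 16 * l ≤ n' := hδn.trans (mul_le_of_le_one_left hn'0 hδ1)
  -- the good pairs
  obtain ⟨gg, hgg⟩ : ∃ gg : ℝ, gg = (prs (good x δ) A).card := ⟨_, rfl⟩
  obtain ⟨Q1, hQ1⟩ : ∃ Q1, Q1 = (prA A').filter (fun y => good x δ y.1 y.2) := ⟨_, rfl⟩
  have hQ1g : (Q1.card : ℝ) ≤ gg := by
    rw [hgg]
    have : Q1 ⊆ prs (good x δ) A := by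
      intro y hy
      rw [hQ1] at hy
      unfold prA at hy
      rw [mem_filter, mem_filter, mem_product] at hy
      unfold prs
      rw [mem_filter, mem_product]
      exact ⟨⟨hA'A hy.1.1.1, hA'A hy.1.1.2⟩, hy.1.2, hy.2⟩
    exact_mod_cast card_le_card this
  have hsum : l ^ 2 * ∑ y ∈ prA A', (pi2 x (y.2 - y.1) : ℝ) ≤ gg * (M * x) + (1 - δ) * x * P := by
    rw [mul_sum, ← sum_filter_add_sum_filter_not (prA A') (fun y => good x δ y.1 y.2), ← hQ1]
    apply add_le_add
    · calc ∑ y ∈ Q1, l ^ 2 * (pi2 x (y.2 - y.1) : ℝ) ≤ ∑ y ∈ Q1, M * x := by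
            apply sum_le_sum
            intro y hy
            rw [hQ1] at hy
            unfold prA at hy
            rw [mem_filter, mem_filter, mem_product] at hy
            have hd : ((y.2 - y.1 : ℕ) : ℝ) ≤ Real.log x ^ B := by
              refine le_trans ?_ hHl
              have := hA'H _ hy.1.1.2
              exact_mod_cast (by omega : y.2 - y.1 ≤ H)
            have h5 := h2 x hx2 (y.2 - y.1) (hpar _ hy.1.1.1 _ hy.1.1.2 hy.1.2) (by omega) hd
            rw [← hl] at h5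
            rw [hM]
            linarith
        _ = Q1.card * (M * x) := by rw [sum_const, nsmul_eq_mul]
        _ ≤ gg * (M * x) := mul_le_mul_of_nonneg_right hQ1g (by positivity)
    · rw [hPQ, mul_sum]
      calc ∑ y ∈ (prA A').filter (fun y => ¬ good x δ y.1 y.2), l ^ 2 * (pi2 x (y.2 - y.1) : ℝ) ≤
          ∑ y ∈ (prA A').filter (fun y => ¬ good x δ y.1 y.2), (1 - δ) * x * G (H + 2) ((y.2 - y.1 : ℕ) : ℤ) := by
            apply sum_le_sum
            intro y hy
            unfold prA at hy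
            rw [mem_filter, mem_filter, mem_product] at hy
            have he := hpar _ hy.1.1.1 _ hy.1.1.2 hy.1.2
            have hg := hy.2
            unfold good at hg
            rw [not_and, not_le] at hg
            have h6 := hg he
            rw [← hl] at h6
            have hle : S (y.2 - y.1) ≤ G (H + 2) ((y.2 - y.1 : ℕ) : ℤ) := by
              apply S_le_G (by omega)
              have := hA'H _ hy.1.1.2
              omega
            have h7 : l ^ 2 * (pi2 x (y.2 - y.1) : ℝ) ≤ (1 - δ) * (S (y.2 - y.1) * x) := by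
              have e : (1 - δ) * (S (y.2 - y.1) * x / l ^ 2) * l ^ 2 = (1 - δ) * (S (y.2 - y.1) * x) := by
                field_simp
              rw [← e, mul_comm]
              exact mul_le_mul_of_nonneg_right h6.le (by positivity)
            refine h7.trans ?_
            have h8 : 0 ≤ (1 - δ) * x := mul_nonneg (by linarith) hx0.le
            have h9 := mul_le_mul_of_nonneg_left hle h8
            linarith
        _ ≤ ∑ y ∈ prA A', (1 - δ) * x * G (H + 2) ((y.2 - y.1 : ℕ) : ℤ) := by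
            apply sum_le_sum_of_subset_of_nonneg (filter_subset _ _)
            intro y _ _
            exact mul_nonneg (mul_nonneg (by linarith) hx0.le) (G_nonneg _ _)
  have hκ : 1 / l ^ (U + 1) ≤ δ / 2 := by
    have h5 : 1 / l ^ (U + 1) ≤ (1 / l ^ U) / 2 := by
      rw [pow_succ, div_div]
      apply one_div_le_one_div_of_le (by positivity)
      exact mul_le_mul_of_nonneg_left (by linarith) (by positivity)
    linarith
  have hPn : n' ^ 2 / 8 ≤ P := by
    have : 4 * l * n' ≤ n' * n' := mul_le_mul_of_nonneg_right (by linarith) hn'0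
    have e : n' ^ 2 = n' * n' := sq _
    linarith
  have hP0 : 0 ≤ P := le_trans (by positivity) hPn
  have k1 : x * ((1 - 1 / l ^ (U + 1)) * P - l / 2 * n') ≤ x * (gg * M + (1 - δ) * P) := by
    have := c1.trans hsum
    linarith
  have k2 := le_of_mul_le_mul_left k1 hx0
  have k3 : δ / 2 * P ≤ (δ - 1 / l ^ (U + 1)) * P := mul_le_mul_of_nonneg_right (by linarith) hP0
  have k4 : δ / 2 * (n' ^ 2 / 8) ≤ δ / 2 * P := mul_le_mul_of_nonneg_left hPn (by positivity)
  have k5 : 16 * l * n' ≤ δ * n' * n' := mul_le_mul_of_nonneg_right hδn hn'0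
  have k6 : δ * n' ^ 2 / 32 ≤ gg * M := by
    have e : δ * n' * n' = δ * n' ^ 2 := by ring
    rw [e] at k5
    have e2 : (1 - 1 / l ^ (U + 1)) * P = (1 - δ) * P + (δ - 1 / l ^ (U + 1)) * P := by ring
    rw [e2] at k2
    have e3 : δ / 2 * (n' ^ 2 / 8) = δ * n' ^ 2 / 16 := by ring
    rw [e3] at k4
    linarith
  have k7 : δ * n ^ 2 / 128 ≤ gg * M := by
    refine le_trans ?_ k6
    have h5 : (n / 2) ^ 2 ≤ n' ^ 2 := pow_le_pow_left₀ (by positivity) hcard 2
    have h6 := mul_le_mul_of_nonneg_left h5 hδ0.le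
    have e : δ * (n / 2) ^ 2 = δ * n ^ 2 / 4 := by ring
    rw [e] at h6
    linarith
  rw [← hgg]
  have hM0 : 0 < M := by linarith
  have e : δ / (128 * C * Real.log l) * n ^ 2 = δ * n ^ 2 / 128 / M := by
    rw [hM]
    have h5 : C ≠ 0 := by linarith
    have h6 : Real.log l ≠ 0 := by linarith
    field_simp
  rw [e, div_le_iff₀ hM0]
  exact k7

end Pool.Agent.L7h72.HW
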