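import Mathlib
import Pool.Agent.L7h72.HW.Pi2
import Pool.Agent.L7h72.HW.Ser
import Pool.Agent.TH891.SG.Pr2
import Pool.Agent.W218.TX.Up

set_option autoImplicit false

/-! The uniform upper bound for prime pairs. -/

namespace Pool.Agent.L7h72.HW

open Finset Filter

lemma prod_le_card (s : Finset ℕ) : (∀ p ∈ s, 3 ≤ p) → ∏ p ∈ s, (((p : ℝ) - 1) / ((p : ℝ) - 2)) ≤ s.card + 1 := by
  classical
  induction s using Finset.induction_on_max with
  | empty => intro _; simp
  | insert a s hmax ih =>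
    intro h
    have hs : ∀ p ∈ s, 3 ≤ p := fun p hp => h p (mem_insert_of_mem hp)
    have ha : a ∉ s := fun h' => lt_irrefl a (hmax a h')
    have h3 : 3 ≤ a := h a (mem_insert_self _ _)
    have hc : s.card + 3 ≤ a := by
      have : s ⊆ Ico 3 a := fun p hp => by
        rw [mem_Ico]; exact ⟨hs p hp, hmax p hp⟩
      have := card_le_card this
      rw [Nat.card_Ico] at this
      omega
    rw [prod_insert ha, card_insert_of_notMem ha]
    have hcr : (s.card : ℝ) + 3 ≤ a := by exact_mod_cast hc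
    have hc0 : (0 : ℝ) ≤ s.card := Nat.cast_nonneg _
    have h5 := ih hs
    have h6 : 0 ≤ ∏ p ∈ s, (((p : ℝ) - 1) / ((p : ℝ) - 2)) := by
      apply prod_nonneg
      intro p hp
      have : (3 : ℝ) ≤ p := by exact_mod_cast hs p hp
      exact div_nonneg (by linarith) (by linarith)
    have h7 : ((a : ℝ) - 1) / ((a : ℝ) - 2) ≤ (s.card + 2) / (s.card + 1) := by
      rw [div_le_div_iff₀ (by linarith) (by linarith)]
      nlinarith
    calc ((a : ℝ) - 1) / ((a : ℝ) - 2) * ∏ p ∈ s, (((p : ℝ) - 1) / ((p : ℝ) - 2)) ≤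
        (s.card + 2) / (s.card + 1) * (s.card + 1) := mul_le_mul h7 h5 h6 (by positivity)
      _ = s.card + 2 := by
          have : (s.card : ℝ) + 1 ≠ 0 := by linarith
          field_simp
      _ = _ := by push_cast; ring

lemma C2_le_one : C2 ≤ 1 := by
  refine (C2_le 0).trans (le_of_eq ?_)
  apply prod_eq_one
  intro p hp
  rw [mem_filter, Pool.Agent.H373R2.T7.mem_pz] at hp
  omega

lemma SP_le {d : ℕ} (hd : 1 ≤ d) : Pool.Agent.TH891.SG.SP d ≤ 2 * (2 * Real.log d + 1) := by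
  classical
  have hC : Pool.Agent.TH891.SG.C2 = C2 := rfl
  unfold Pool.Agent.TH891.SG.SP
  rw [hC]
  obtain ⟨s, hs⟩ : ∃ s, s = d.primeFactors.filter (fun p : ℕ => 2 < p) := ⟨_, rfl⟩
  rw [← hs]
  have h1 := prod_le_card s (by
    intro p hp
    rw [hs, mem_filter] at hp
    exact hp.2)
  have h2 : 0 ≤ ∏ p ∈ s, (((p : ℝ) - 1) / ((p : ℝ) - 2)) := by
    apply prod_nonneg
    intro p hp
    rw [hs, mem_filter] at hp
    have : (3 : ℝ) ≤ p := by exact_mod_cast hp.2
    exact div_nonneg (by linarith) (by linarith)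
  have h3 : (s.card : ℝ) ≤ 2 * Real.log d := by
    have h4 : 2 ^ d.primeFactors.card ≤ d := by
      have h5 : 2 ^ d.primeFactors.card ≤ ∏ p ∈ d.primeFactors, p := by
        apply Finset.pow_card_le_prod
        intro p hp
        exact (Nat.prime_of_mem_primeFactors hp).two_le
      exact h5.trans (Nat.le_of_dvd (by omega) (Nat.prod_primeFactors_dvd d))
    have h6 : (2 : ℝ) ^ d.primeFactors.card ≤ d := by exact_mod_cast h4
    have h7 := Real.log_le_log (by positivity) h6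
    rw [Real.log_pow] at h7
    have h8 : (s.card : ℝ) ≤ d.primeFactors.card := by
      rw [hs]
      exact_mod_cast card_le_card (filter_subset _ _)
    have h9 : (1 / 2 : ℝ) ≤ Real.log 2 := by
      have := Real.log_two_gt_d9
      linarith
    have h10 : (0 : ℝ) ≤ d.primeFactors.card := Nat.cast_nonneg _
    have h11 : (d.primeFactors.card : ℝ) * (1 / 2) ≤ (d.primeFactors.card : ℝ) * Real.log 2 :=
      mul_le_mul_of_nonneg_left h9 h10
    linarith
  have h4 : 2 * C2 * ∏ p ∈ s, (((p : ℝ) - 1) / ((p : ℝ) - 2)) ≤ 2 * 1 * ∏ p ∈ s, (((p : ℝ) - 1) / ((p : ℝ) - 2)) := by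
    apply mul_le_mul_of_nonneg_right _ h2
    linarith [C2_le_one]
  linarith

lemma pi2_le_pc (x : ℝ) {d : ℕ} : pi2 x d ≤ Pool.Agent.TH891.SG.pc {0, d} ⌊x⌋₊ := by
  classical
  unfold pi2 Pool.Agent.TH891.SG.pc
  apply card_le_card_of_injOn (fun p => p - d)
  · intro p hp
    rw [mem_coe, mem_filter, mem_Icc] at hp
    rw [mem_coe, mem_filter, mem_Icc]
    simp only
    have h2 := hp.2.2.two_le
    refine ⟨⟨by omega, by omega⟩, ?_⟩
    intro s hs
    rw [mem_insert, mem_singleton] at hs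
    rcases hs with rfl | rfl
    · rw [add_zero]; exact hp.2.2
    · have e : p - s + s = p := by omega
      rw [e]; exact hp.2.1
  · intro p hp q hq h
    rw [mem_coe, mem_filter, mem_Icc] at hp hq
    simp only at h
    have h2 := hp.2.2.two_le
    have h3 := hq.2.2.two_le
    omega

theorem upper (B : ℕ) : ∃ C : ℝ, 1 ≤ C ∧ ∃ X : ℝ, ∀ x : ℝ, X ≤ x → ∀ d : ℕ, Even d → 1 ≤ d → (d : ℝ) ≤ Real.log x ^ B →
      (pi2 x d : ℝ) * Real.log x ^ 2 ≤ C * Real.log (Real.log x) * x := by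
  classical
  obtain ⟨C1, hC1, hup⟩ := Pool.Agent.W218.TX.pi_upper 1
  obtain ⟨N1, hN1⟩ := eventually_atTop.1 (hup ((B + 1 : ℕ) : ℝ))
  have t1 := Real.tendsto_log_atTop.eventually_ge_atTop ((2 : ℝ) ^ (B + 1) + 16)
  have t2 := (Real.tendsto_log_atTop.comp Real.tendsto_log_atTop).eventually_ge_atTop (1 : ℝ)
  have t3 := eventually_ge_atTop ((N1 : ℝ) + 16)
  obtain ⟨X, hX⟩ := eventually_atTop.1 (t1.and (t2.and t3))
  refine ⟨1 + 8 * C1 * (4 * B + 1), ?_, X, fun x hx d hd hd1 hdl => ?_⟩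
  · have : 0 ≤ 8 * C1 * (4 * B + 1) := by positivity
    linarith
  obtain ⟨u1, u2, u3⟩ := hX x hx
  simp only [Function.comp] at u2
  have hn1 : (0 : ℝ) ≤ N1 := Nat.cast_nonneg _
  have hx16 : 16 ≤ x := by linarith
  have hx0 : 0 < x := by linarith
  obtain ⟨N, hN⟩ : ∃ N, N = ⌊x⌋₊ := ⟨_, rfl⟩
  have hNx : (N : ℝ) ≤ x := by rw [hN]; exact Nat.floor_le hx0.le
  have hNx2 : x / 2 ≤ N := by
    have := Nat.sub_one_lt_floor x
    rw [← hN] at this
    linarith
  have hNN : N1 ≤ N := by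
    rw [hN]
    apply Nat.le_floor
    linarith
  have hN0 : (0 : ℝ) < N := by linarith
  obtain ⟨l, hl⟩ : ∃ l, l = Real.log x := ⟨_, rfl⟩
  rw [← hl] at u1 u2 hdl ⊢
  obtain ⟨L, hL⟩ : ∃ L, L = Real.log (N : ℝ) := ⟨_, rfl⟩
  have hlL : l / 2 ≤ L := by
    have h5 : √x ≤ N := by
      refine le_trans ?_ hNx2
      rw [Real.sqrt_le_left (by linarith)]
      nlinarith
    have h6 : Real.log (√x) ≤ L := by rw [hL]; exact Real.log_le_log (Real.sqrt_pos.2 hx0) h5
    rw [Real.log_sqrt hx0.le, ← hl] at h6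
    exact h6
  have hp2 : (0 : ℝ) < 2 ^ (B + 1) := by positivity
  have hl0 : 0 < l := by linarith
  have hL0 : 0 < L := by linarith
  have hd2 : 2 ≤ d := by
    obtain ⟨k, hk⟩ := hd
    omega
  have hlB : l ^ B ≤ L ^ (B + 1) := by
    calc l ^ B ≤ (2 * L) ^ B := pow_le_pow_left₀ hl0.le (by linarith) _
      _ = 2 ^ B * L ^ B := mul_pow _ _ _
      _ ≤ L * L ^ B := by
          apply mul_le_mul_of_nonneg_right _ (by positivity)
          have : (2 : ℝ) ^ (B + 1) = 2 ^ B * 2 := pow_succ _ _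
          linarith
      _ = L ^ (B + 1) := by rw [pow_succ]; ring
  have hcard : ({0, d} : Finset ℕ).card = 1 + 1 := card_pair (by omega)
  have h1 := hN1 N hNN {0, d} hcard (by
    intro t ht
    rw [Real.rpow_natCast, ← hL]
    rw [mem_insert, mem_singleton] at ht
    rcases ht with rfl | rfl
    · rw [Nat.cast_zero]; positivity
    · exact hdl.trans hlB)
  have hCT := Pool.Agent.TH891.SG.CT_pair hd2 hd
  have hadm : Pool.Agent.H387R2.Uni.Adm {0, d} := by
    intro p hp
    rw [Pool.Agent.TH891.SG.nuT_pair hp]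
    split_ifs with h2
    · exact hp.one_lt
    · have := hp.two_le
      have hp2 : p ≠ 2 := by
        rintro rfl
        exact h2 hd.two_dvd
      omega
  have hpc : Pool.Agent.H387R2.Uni.piT {0, d} N = Pool.Agent.TH891.SG.pc {0, d} N := by
    have := Pool.Agent.TH891.SG.piT_add (S := {0, d}) (by simp) 0 N hadm
    simpa using this
  rw [hpc, hCT, ← hL] at h1
  have h2 : (pi2 x d : ℝ) ≤ Pool.Agent.TH891.SG.pc {0, d} N := by
    rw [hN]
    exact_mod_cast pi2_le_pc x
  have h3 := SP_le hd1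
  have hlogd : Real.log d ≤ B * Real.log l := by
    have := Real.log_le_log (by exact_mod_cast (by omega : 0 < d)) hdl
    rwa [Real.log_pow] at this
  have h4 : Pool.Agent.TH891.SG.SP d ≤ 2 * ((2 * B + 1) * Real.log l) := by
    refine h3.trans ?_
    have : 2 * Real.log d + 1 ≤ (2 * B + 1) * Real.log l := by linarith
    linarith
  have h5 : (N : ℝ) / L ^ (1 + 1) * l ^ 2 ≤ 4 * x := by
    rw [div_mul_eq_mul_div, div_le_iff₀ (by positivity)]
    have h6 : l ^ 2 ≤ 4 * L ^ (1 + 1) := by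
      calc l ^ 2 ≤ (2 * L) ^ 2 := pow_le_pow_left₀ hl0.le (by linarith) 2
        _ = 4 * L ^ (1 + 1) := by ring
    calc (N : ℝ) * l ^ 2 ≤ x * (4 * L ^ (1 + 1)) := mul_le_mul hNx h6 (by positivity) hx0.le
      _ = 4 * x * L ^ (1 + 1) := by ring
  have hll0 : 0 ≤ Real.log l := by linarith
  have hB0 : (0 : ℝ) ≤ B := Nat.cast_nonneg _
  have hll : 0 ≤ 2 * ((2 * B + 1) * Real.log l) := by positivity
  calc (pi2 x d : ℝ) * l ^ 2 ≤ C1 * ((N / L ^ (1 + 1)) * Pool.Agent.TH891.SG.SP d) * l ^ 2 := by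
        apply mul_le_mul_of_nonneg_right (h2.trans h1) (by positivity)
    _ = C1 * ((N / L ^ (1 + 1) * l ^ 2) * Pool.Agent.TH891.SG.SP d) := by ring
    _ ≤ C1 * ((N / L ^ (1 + 1) * l ^ 2) * (2 * ((2 * B + 1) * Real.log l))) := by
        apply mul_le_mul_of_nonneg_left _ hC1.le
        exact mul_le_mul_of_nonneg_left h4 (by positivity)
    _ ≤ C1 * ((4 * x) * (2 * ((2 * B + 1) * Real.log l))) := by
        apply mul_le_mul_of_nonneg_left _ hC1.le
        exact mul_le_mul_of_nonneg_right h5 hll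
    _ ≤ (1 + 8 * C1 * (4 * B + 1)) * Real.log l * x := by
        have h7 : 0 ≤ Real.log l * x := by positivity
        have h8 : 0 ≤ C1 * B * (Real.log l * x) := by positivity
        nlinarith

end Pool.Agent.L7h72.HW
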